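import Mathlib

/-!
# Definitions for the quantitative reciprocal Dunford-Pettis property
-/

open scoped ENNReal NNReal

set_option autoImplicit false

namespace Pool.Agent.Lib.MP_2f19c2_an

universe u v

section Defs

/-- A weakly Cauchy sequence: every continuous linear functional maps it to a Cauchy sequence. -/
def IsWeaklyCauchy (𝕜 : Type) [RCLike 𝕜] {X : Type u} [NormedAddCommGroup X] [NormedSpace 𝕜 X]
    (x : ℕ → X) : Prop :=
  ∀ φ : StrongDual 𝕜 X, CauchySeq (fun k => φ (x k))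

/-- A completely continuous operator: it maps weakly Cauchy sequences to norm Cauchy sequences. -/
def IsComplCont {𝕜 : Type} [RCLike 𝕜] {X : Type u} [NormedAddCommGroup X] [NormedSpace 𝕜 X]
    {Y : Type v} [NormedAddCommGroup Y] [NormedSpace 𝕜 Y] (T : X →L[𝕜] Y) : Prop :=
  ∀ x : ℕ → X, IsWeaklyCauchy 𝕜 x → CauchySeq (fun k => T (x k))

end Defs

/-- A weakly compact operator: the image of the closed unit ball is relatively weakly compact. -/
def IsWeaklyCompactOp {𝕜 : Type} [RCLike 𝕜] {X : Type u} [NormedAddCommGroup X] [NormedSpace 𝕜 X]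
    {Y : Type v} [NormedAddCommGroup Y] [NormedSpace 𝕜 Y] (T : X →L[𝕜] Y) : Prop :=
  IsCompact (closure (toWeakSpace 𝕜 Y '' (T '' Metric.closedBall 0 1)))

section Defs2

variable {𝕜 : Type} [RCLike 𝕜] {X : Type u} [NormedAddCommGroup X] [NormedSpace 𝕜 X]
    {Y : Type v} [NormedAddCommGroup Y] [NormedSpace 𝕜 Y]

/-- The weak* closure in the bidual `Y**` of (the canonical image of) a subset `A` of `Y`. -/
def bidualClosure (𝕜 : Type) [RCLike 𝕜] {Y : Type v} [NormedAddCommGroup Y] [NormedSpace 𝕜 Y]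
    (A : Set Y) : Set (StrongDual 𝕜 (StrongDual 𝕜 Y)) :=
  {F | StrongDual.toWeakDual F ∈
    closure ((fun y => StrongDual.toWeakDual (NormedSpace.inclusionInDoubleDual 𝕜 Y y)) '' A)}

/-- `wk_Y(A)`: the supremum, over `F` in the weak* closure of `A` in `Y**`, of the norm distance
of `F` to the canonical copy of `Y` in `Y**`. -/
noncomputable def wkSet (𝕜 : Type) [RCLike 𝕜] {Y : Type v} [NormedAddCommGroup Y]
    [NormedSpace 𝕜 Y] (A : Set Y) : ℝ≥0∞ :=
  ⨆ F ∈ bidualClosure 𝕜 A, Metric.infEDist F (Set.range (NormedSpace.inclusionInDoubleDual 𝕜 Y))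

/-- `wk_Y(T) = wk_Y(T B_X)`. -/
noncomputable def wk (T : X →L[𝕜] Y) : ℝ≥0∞ := wkSet 𝕜 (T '' Metric.closedBall 0 1)

/-- `ca(y_k)`: the infimum over `n` of the supremum of `‖y_k - y_l‖` over `k, l ≥ n`. -/
noncomputable def ca {Y : Type v} [NormedAddCommGroup Y] (y : ℕ → Y) : ℝ≥0∞ :=
  ⨅ n : ℕ, ⨆ (k : ℕ) (_ : n ≤ k) (l : ℕ) (_ : n ≤ l), edist (y k) (y l)

/-- `cc(T)`: the supremum of `ca(T x_k)` over all weakly Cauchy sequences in the closed unit
ball. -/
noncomputable def cc (T : X →L[𝕜] Y) : ℝ≥0∞ :=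
  ⨆ (x : ℕ → X) (_ : IsWeaklyCauchy 𝕜 x) (_ : ∀ k, x k ∈ Metric.closedBall (0 : X) 1),
    ca (fun k => T (x k))

/-- The reciprocal Dunford-Pettis property. -/
def HasRDPP (𝕜 : Type) [RCLike 𝕜] (X : Type u) [NormedAddCommGroup X] [NormedSpace 𝕜 X] : Prop :=
  ∀ (Y : Type v) [NormedAddCommGroup Y] [NormedSpace 𝕜 Y] [CompleteSpace Y] (T : X →L[𝕜] Y),
    IsComplCont T → IsWeaklyCompactOp T

/-- The quantitative reciprocal Dunford-Pettis property. -/
def HasQuantRDPP (𝕜 : Type) [RCLike 𝕜] (X : Type u) [NormedAddCommGroup X] [NormedSpace 𝕜 X] :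
    Prop :=
  ∃ C : ℝ≥0, ∀ (Y : Type v) [NormedAddCommGroup Y] [NormedSpace 𝕜 Y] [CompleteSpace Y]
    (T : X →L[𝕜] Y), wk T ≤ C * cc T

end Defs2

end Pool.Agent.Lib.MP_2f19c2_an
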