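import Pool.Agent.Lib.MP_2f19c2_an.Defs

/-!
# A Banach space with the reciprocal Dunford-Pettis property but without its quantitative version

The space is a `c₀`-sum of spaces `X_n`, where `X_n` is `ℓ^∞(Γ)` (`Γ = {±1}^ℕ`) renormed so that its
unit ball is comparable with `B(ℓ¹) + (1/(n+1)) B(ℓ^∞(Γ))`, for the natural copy of `ℓ¹` in
`ℓ^∞(Γ)`.  It is realised as a quotient of `C₀(ℕ, ℓ¹ ⊕ ℓ^∞(Γ))`.

* Every completely continuous operator on `ℓ^∞(Γ)` is weakly compact (`UWC_of_Z`), and this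
  property passes to the `c₀`-sum (`UWC_of_C0`) and to the quotient.
* The natural operators `T_n : X → ℓ^∞(Γ)` have `wk(T_n) ≥ 1` (`one_le_wk_TT`) but
  `cc(T_n) ≤ 24/(n+1)` (`cc_TT_le`), by a quantitative Schur property of `ℓ¹` (`schur`).
-/

open scoped ENNReal NNReal ZeroAtInfty
open Filter Topology

set_option autoImplicit false

namespace Pool.Agent.Lib.MP_2f19c2_an

universe u v w

/-! ## Control of exhaustive families of submeasures -/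

section Control

variable {Γ I : Type*}

theorem exh_mono {ν : Set Γ → ℝ}
    (exh : ∀ A : ℕ → Set Γ, (∀ i j, i < j → Disjoint (A i) (A j)) →
      Tendsto (fun n => ν (A n)) atTop (𝓝 0))
    {C : ℕ → Set Γ} (hC : Monotone C) {η : ℝ} (hη : 0 < η) :
    ∃ p, ∀ q, p ≤ q → ν (C q \ C p) ≤ η := by
  by_contra hcon
  push Not at hcon
  choose g hg1 hg2 using hcon
  let p : ℕ → ℕ := fun k => Nat.rec 0 (fun _ r => g r) k
  have hp : ∀ k, p (k + 1) = g (p k) := fun k => rfl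
  have hpm : Monotone p := by
    apply monotone_nat_of_le_succ
    intro k
    rw [hp]
    exact hg1 _
  have h1 := exh (fun k => C (p (k + 1)) \ C (p k)) (by
    intro i j hij
    rw [Set.disjoint_left]
    intro x hx hx'
    apply hx'.2
    have : p (i + 1) ≤ p j := hpm hij
    exact hC this hx.1)
  have h2 := (h1.eventually (gt_mem_nhds hη)).exists
  obtain ⟨k, hk⟩ := h2
  have h3 := hg2 (p k)
  rw [← hp] at h3
  linarith

theorem control (ν : Set Γ → ℝ) (μ : I → Set Γ → ℝ)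
    (ν_mono : ∀ A B : Set Γ, A ⊆ B → ν A ≤ ν B)
    (ν_union : ∀ A B : Set Γ, ν (A ∪ B) ≤ ν A + ν B)
    (μ_mono : ∀ i, ∀ A B : Set Γ, A ⊆ B → μ i A ≤ μ i B)
    (μ_union : ∀ i, ∀ A B : Set Γ, μ i (A ∪ B) ≤ μ i A + μ i B)
    (μ_empty : ∀ i, μ i ∅ ≤ 0)
    (exh : ∀ A : ℕ → Set Γ, (∀ i j, i < j → Disjoint (A i) (A j)) →
      Tendsto (fun n => ν (A n)) atTop (𝓝 0))
    (μ_le : ∀ i A, μ i A ≤ ν A)
    {ε : ℝ} (hε : 0 < ε) (hsup : ∀ A, ε < ν A → ∃ i, ε < μ i A) :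
    ∃ (s : Finset I) (δ : ℝ), 0 < δ ∧ ∀ A, (∀ i ∈ s, μ i A ≤ δ) → ν A ≤ ε := by
  classical
  by_contra hcon
  push Not at hcon
  obtain ⟨f, hf1, hf2⟩ := exists_seq_of_forall_finset_exists
    (fun a : ℕ × Set Γ × I => ε < μ a.2.2 a.2.1)
    (fun a b : ℕ × Set Γ × I => a.1 < b.1 ∧ μ a.2.2 b.2.1 ≤ (1 / 2 : ℝ) ^ b.1) (by
      intro s _
      obtain ⟨A, hA1, hA2⟩ := hcon (s.image (fun a => a.2.2)) ((1 / 2 : ℝ) ^ (s.sup (fun a => a.1) + 1))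
        (by positivity)
      obtain ⟨i, hi⟩ := hsup A hA2
      refine ⟨(s.sup (fun a => a.1) + 1, A, i), hi, ?_⟩
      intro x hx
      refine ⟨?_, hA1 _ (Finset.mem_image_of_mem _ hx)⟩
      have : x.1 ≤ s.sup (fun a => a.1) := Finset.le_sup (f := fun a : ℕ × Set Γ × I => a.1) hx
      simpa using Nat.lt_succ_of_le this)
  set A : ℕ → Set Γ := fun n => (f n).2.1 with hAdef
  set ι : ℕ → I := fun n => (f n).2.2 with hιdef
  have hk : StrictMono (fun n => (f n).1) := fun m n hmn => (hf2 m n hmn).1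
  have hA : ∀ n, ε < μ (ι n) (A n) := hf1
  have hsmall : ∀ m n, m < n → μ (ι m) (A n) ≤ (1 / 2 : ℝ) ^ n := by
    intro m n hmn
    refine (hf2 m n hmn).2.trans ?_
    exact pow_le_pow_of_le_one (by norm_num) (by norm_num) (hk.le_apply)
  -- tails
  let C : ℕ → ℕ → Set Γ := fun p q => {γ | ∃ j, p < j ∧ j ≤ q ∧ γ ∈ A j}
  have hCmono : ∀ p, Monotone (C p) := by
    intro p q q' hqq' γ hγ
    obtain ⟨j, h1, h2, h3⟩ := hγ
    exact ⟨j, h1, h2.trans hqq', h3⟩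
  have hQ : ∀ p, ∃ Q, ∀ q, Q ≤ q → ν (C p q \ C p Q) ≤ ε / 4 * (1 / 2 : ℝ) ^ (p + 1) := fun p =>
    exh_mono exh (hCmono p) (by positivity)
  choose Q hQ using hQ
  let V : ℕ → Set Γ := fun p => C p (Q p)
  have hV : ∀ p n, p < n → ν (A n \ V p) ≤ ε / 4 * (1 / 2 : ℝ) ^ (p + 1) := by
    intro p n hpn
    refine (ν_mono _ _ ?_).trans (hQ p (max n (Q p)) (le_max_right _ _))
    intro γ hγ
    exact ⟨⟨n, hpn, le_max_left _ _, hγ.1⟩, hγ.2⟩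
  let W : ℕ → Set Γ := fun p => {γ | ∀ i, i ≤ p → γ ∈ V i}
  have hWanti : ∀ p q, p ≤ q → W q ⊆ W p := fun p q hpq γ hγ i hi => hγ i (hi.trans hpq)
  have hW : ∀ p n, p < n → ν (A n \ W p) ≤ ε / 4 * (1 - (1 / 2 : ℝ) ^ (p + 1)) := by
    intro p
    induction p with
    | zero =>
      intro n hn
      refine (ν_mono _ _ ?_).trans ((hV 0 n hn).trans ?_)
      · intro γ hγ
        refine ⟨hγ.1, fun h => hγ.2 ?_⟩
        intro i hi
        obtain rfl : i = 0 := by omega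
        exact h
      · nlinarith
    | succ p ih =>
      intro n hn
      have h1 : A n \ W (p + 1) ⊆ (A n \ W p) ∪ (A n \ V (p + 1)) := by
        intro γ hγ
        by_contra hno
        simp only [Set.mem_union, Set.mem_sdiff, not_or, not_and, not_not] at hno
        apply hγ.2
        intro i hi
        rcases Nat.lt_or_ge i (p + 1) with h | h
        · exact hno.1 hγ.1 i (by omega)
        · obtain rfl : i = p + 1 := by omega
          exact hno.2 hγ.1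
      have h2 := (ν_mono _ _ h1).trans (ν_union _ _)
      have h3 := ih n (by omega)
      have h4 := hV (p + 1) n hn
      have h5 : (1 / 2 : ℝ) ^ (p + 1 + 1) = (1 / 2 : ℝ) ^ (p + 1) * (1 / 2) := pow_succ _ _
      rw [h5] at h4 ⊢
      nlinarith
  have hμC : ∀ n p m, n ≤ p → μ (ι n) (C p (p + m)) ≤ (1 / 2 : ℝ) ^ p - (1 / 2 : ℝ) ^ (p + m) := by
    intro n p m hnp
    induction m with
    | zero =>
      have h1 : C p (p + 0) = ∅ := by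
        ext γ
        simp only [add_zero, Set.mem_empty_iff_false, iff_false]
        rintro ⟨j, h1, h2, _⟩
        omega
      rw [h1]
      simpa using μ_empty (ι n)
    | succ m ih =>
      have h1 : C p (p + (m + 1)) ⊆ C p (p + m) ∪ A (p + (m + 1)) := by
        rintro γ ⟨j, h1, h2, h3⟩
        rcases Nat.lt_or_ge j (p + (m + 1)) with h | h
        · exact Or.inl ⟨j, h1, by omega, h3⟩
        · obtain rfl : j = p + (m + 1) := by omega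
          exact Or.inr h3
      have h2 := (μ_mono (ι n) _ _ h1).trans (μ_union (ι n) _ _)
      have h3 := hsmall n (p + (m + 1)) (by omega)
      have h5 : (1 / 2 : ℝ) ^ (p + (m + 1)) = (1 / 2 : ℝ) ^ (p + m) * (1 / 2) := by
        rw [← add_assoc, pow_succ]
      rw [h5] at h3 ⊢
      linarith
  have hμV : ∀ n p, n ≤ p → μ (ι n) (V p) ≤ (1 / 2 : ℝ) ^ p := by
    intro n p hnp
    have h1 : V p ⊆ C p (p + Q p) := hCmono p (by omega)
    have h2 := hμC n p (Q p) hnp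
    have h3 : (0 : ℝ) < (1 / 2 : ℝ) ^ (p + Q p) := by positivity
    have h4 := μ_mono (ι n) _ _ h1
    linarith
  obtain ⟨p, hp⟩ := exh_mono exh (C := fun n => (W n)ᶜ)
    (fun a b hab => Set.compl_subset_compl.mpr (hWanti a b hab)) (η := ε / 4) (by linarith)
  have hp' : ∀ q, p ≤ q → ν (W p \ W q) ≤ ε / 4 := by
    intro q hq
    have h1 := hp q hq
    have h2 : (W q)ᶜ \ (W p)ᶜ = W p \ W q := by
      ext γ
      simp only [Set.mem_sdiff, Set.mem_compl_iff, not_not]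
      tauto
    rwa [h2] at h1
  obtain ⟨q0, hq0⟩ := exists_pow_lt_of_lt_one (show (0 : ℝ) < ε / 4 by linarith)
    (show (1 / 2 : ℝ) < 1 by norm_num)
  set n := p + 1 with hn
  set q := max q0 n with hq
  have hq1 : (1 / 2 : ℝ) ^ q < ε / 4 :=
    lt_of_le_of_lt (pow_le_pow_of_le_one (by norm_num) (by norm_num) (le_max_left _ _)) hq0
  have hqn : n ≤ q := le_max_right _ _
  have e1 := hA n
  have e2 : μ (ι n) (A n) ≤ μ (ι n) (W p) + μ (ι n) (A n \ W p) := by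
    refine (μ_mono (ι n) _ _ ?_).trans (μ_union (ι n) _ _)
    intro γ hγ
    by_cases h : γ ∈ W p
    · exact Or.inl h
    · exact Or.inr ⟨hγ, h⟩
  have e3 : μ (ι n) (A n \ W p) ≤ ε / 4 := by
    refine (μ_le _ _).trans ((hW p n (by omega)).trans ?_)
    have : (0 : ℝ) < (1 / 2 : ℝ) ^ (p + 1) := by positivity
    nlinarith
  have e4 : μ (ι n) (W p) ≤ μ (ι n) (W p \ W q) + μ (ι n) (W q) := by
    refine (μ_mono (ι n) _ _ ?_).trans (μ_union (ι n) _ _)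
    intro γ hγ
    by_cases h : γ ∈ W q
    · exact Or.inr h
    · exact Or.inl ⟨hγ, h⟩
  have e5 : μ (ι n) (W p \ W q) ≤ ε / 4 := (μ_le _ _).trans (hp' q (by omega))
  have e6 : μ (ι n) (W q) ≤ (1 / 2 : ℝ) ^ q := by
    refine (μ_mono (ι n) _ _ ?_).trans (hμV n q hqn)
    intro γ hγ
    exact hγ q le_rfl
  linarith

end Control

/-! ## Completely continuous operators on spaces of bounded functions -/

section General

variable {𝕜 : Type} [RCLike 𝕜] {X : Type u} [NormedAddCommGroup X] [NormedSpace 𝕜 X]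
    {Y : Type v} [NormedAddCommGroup Y] [NormedSpace 𝕜 Y]

theorem exists_phase (z : 𝕜) : ∃ c : 𝕜, ‖c‖ ≤ 1 ∧ c * z = (‖z‖ : 𝕜) := by
  obtain ⟨c, hc, h⟩ := RCLike.exists_norm_eq_mul_self z
  exact ⟨c, hc.le, h.symm⟩

theorem opNorm_le_of_ball {T : X →L[𝕜] Y} {C : ℝ} (hC : 0 ≤ C) (h : ∀ x, ‖x‖ ≤ 1 → ‖T x‖ ≤ C) :
    ‖T‖ ≤ C := by
  apply T.opNorm_le_bound hC
  intro x
  rcases eq_or_ne x 0 with rfl | hx
  · simp
  · have hx' : 0 < ‖x‖ := norm_pos_iff.mpr hx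
    have h1 := h (((‖x‖⁻¹ : ℝ) : 𝕜) • x) (by
      rw [norm_smul, RCLike.norm_ofReal, abs_of_nonneg (by positivity), inv_mul_cancel₀ hx'.ne'])
    rw [map_smul, norm_smul, RCLike.norm_ofReal, abs_of_nonneg (by positivity),
      inv_mul_le_iff₀ hx'] at h1
    linarith

/-- A completely continuous operator maps weakly unconditionally Cauchy series to null
sequences. -/
theorem IsComplCont.tendsto_zero {T : X →L[𝕜] Y} (hT : IsComplCont T) {u : ℕ → X} {M : ℝ}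
    (hM : ∀ (K : ℕ) (c : ℕ → 𝕜), (∀ k, ‖c k‖ ≤ 1) → ‖∑ k ∈ Finset.range K, c k • u k‖ ≤ M) :
    Tendsto (fun k => T (u k)) atTop (𝓝 0) := by
  have hwc : IsWeaklyCauchy 𝕜 (fun K => ∑ k ∈ Finset.range K, u k) := by
    intro φ
    have hsum : Summable (fun k => φ (u k)) := by
      apply Summable.of_norm
      apply summable_of_sum_range_le (c := ‖φ‖ * M) (fun _ => norm_nonneg _)
      intro K
      choose c hc1 hc2 using fun k => exists_phase (φ (u k))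
      have h1 : φ (∑ k ∈ Finset.range K, c k • u k) =
          ((∑ k ∈ Finset.range K, ‖φ (u k)‖ : ℝ) : 𝕜) := by
        rw [map_sum]
        push_cast
        apply Finset.sum_congr rfl
        intro k _
        rw [map_smul, smul_eq_mul, hc2]
      have h2 : ‖((∑ k ∈ Finset.range K, ‖φ (u k)‖ : ℝ) : 𝕜)‖ ≤ ‖φ‖ * M := by
        rw [← h1]
        exact (φ.le_opNorm _).trans (mul_le_mul_of_nonneg_left (hM K c hc1) (norm_nonneg _))
      rwa [RCLike.norm_ofReal, abs_of_nonneg (Finset.sum_nonneg fun _ _ => norm_nonneg _)] at h2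
    have h3 := hsum.hasSum.tendsto_sum_nat.cauchySeq
    simpa [map_sum] using h3
  have h := hT _ hwc
  rw [Metric.cauchySeq_iff'] at h
  rw [Metric.tendsto_atTop]
  intro ε hε
  obtain ⟨N, hN⟩ := h (ε / 2) (by linarith)
  refine ⟨N, fun n hn => ?_⟩
  have h1 := hN n hn
  have h2 := hN (n + 1) (by omega)
  have h3 : T (u n) = T (∑ k ∈ Finset.range (n + 1), u k) - T (∑ k ∈ Finset.range n, u k) := by
    rw [← map_sub, Finset.sum_range_succ, add_sub_cancel_left]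
  rw [dist_zero_right, h3, ← dist_eq_norm]
  calc _ ≤ dist (T (∑ k ∈ Finset.range (n + 1), u k)) (T (∑ k ∈ Finset.range N, u k)) +
        dist (T (∑ k ∈ Finset.range n, u k)) (T (∑ k ∈ Finset.range N, u k)) :=
        dist_triangle_right _ _ _
    _ < ε := by linarith

theorem IsComplCont.comp {T : X →L[𝕜] Y} (hT : IsComplCont T) {W : Type*} [NormedAddCommGroup W]
    [NormedSpace 𝕜 W] (R : W →L[𝕜] X) : IsComplCont (T.comp R) := by
  intro x hx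
  exact hT (fun k => R (x k)) (fun φ => hx (φ.comp R))

end General

section Linf

variable (𝕜 : Type) [RCLike 𝕜] (Γ : Type)

/-- The space of bounded functions on `Γ`. -/
abbrev Z := lp (fun _ : Γ => 𝕜) ∞

variable {𝕜 Γ}

/-- A bounded function as an element of `Z`. -/
def mkZ (f : Γ → 𝕜) (C : ℝ) (h : ∀ γ, ‖f γ‖ ≤ C) : Z 𝕜 Γ :=
  ⟨f, memℓp_infty ⟨C, by rintro _ ⟨γ, rfl⟩; exact h γ⟩⟩

theorem mkZ_apply (f : Γ → 𝕜) (C : ℝ) (h : ∀ γ, ‖f γ‖ ≤ C) (γ : Γ) : mkZ f C h γ = f γ := rfl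

theorem Z_apply_le (f : Z 𝕜 Γ) (γ : Γ) : ‖f γ‖ ≤ ‖f‖ := lp.norm_apply_le_norm (by simp) f γ

theorem Z_norm_le {f : Z 𝕜 Γ} {C : ℝ} (hC : 0 ≤ C) (h : ∀ γ, ‖f γ‖ ≤ C) : ‖f‖ ≤ C :=
  lp.norm_le_of_forall_le hC h

open Classical in
/-- The restriction of a function to `A`, extended by zero. -/
noncomputable def PA (𝕜 : Type) [RCLike 𝕜] {Γ : Type} (A : Set Γ) : Z 𝕜 Γ →L[𝕜] Z 𝕜 Γ :=
  LinearMap.mkContinuous
    { toFun := fun f => mkZ (fun γ => if γ ∈ A then f γ else 0) ‖f‖ (by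
        intro γ
        split_ifs
        · exact Z_apply_le f γ
        · simp)
      map_add' := by
        intro f g
        apply lp.ext
        funext γ
        simp only [lp.coeFn_add, Pi.add_apply, mkZ_apply]
        split_ifs <;> simp
      map_smul' := by
        intro c f
        apply lp.ext
        funext γ
        simp only [lp.coeFn_smul, Pi.smul_apply, mkZ_apply, RingHom.id_apply]
        split_ifs <;> simp }
    1 (by
      intro f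
      rw [one_mul]
      apply Z_norm_le (norm_nonneg _)
      intro γ
      simp only [LinearMap.coe_mk, AddHom.coe_mk, mkZ_apply]
      split_ifs
      · exact Z_apply_le f γ
      · simp)

open Classical in
theorem PA_apply (A : Set Γ) (f : Z 𝕜 Γ) (γ : Γ) : PA 𝕜 A f γ = if γ ∈ A then f γ else 0 := rfl

theorem PA_norm_le (A : Set Γ) : ‖(PA 𝕜 A)‖ ≤ 1 :=
  LinearMap.mkContinuous_norm_le _ zero_le_one _

theorem PA_apply_norm_le (A : Set Γ) (f : Z 𝕜 Γ) : ‖PA 𝕜 A f‖ ≤ ‖f‖ := by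
  have := (PA 𝕜 A).le_of_opNorm_le (PA_norm_le A) f
  rwa [one_mul] at this

theorem PA_comp {A B : Set Γ} (h : A ⊆ B) :
    (PA 𝕜 B).comp (PA 𝕜 A) = PA 𝕜 A := by
  ext f γ
  simp only [ContinuousLinearMap.comp_apply, PA_apply]
  by_cases hA : γ ∈ A
  · simp [hA, h hA]
  · simp [hA]

theorem PA_union (A B : Set Γ) :
    PA 𝕜 (A ∪ B) = PA 𝕜 A + PA 𝕜 (B \ A) := by
  ext f γ
  simp only [add_apply, lp.coeFn_add, Pi.add_apply, PA_apply]
  by_cases hA : γ ∈ A <;> by_cases hB : γ ∈ B <;> simp [hA, hB]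

theorem PA_empty : PA 𝕜 (∅ : Set Γ) = 0 := by
  ext f γ
  simp [PA_apply]

theorem PA_compl (A : Set Γ) (f : Z 𝕜 Γ) : f = PA 𝕜 A f + PA 𝕜 Aᶜ f := by
  apply lp.ext
  funext γ
  simp only [lp.coeFn_add, Pi.add_apply, PA_apply]
  by_cases hA : γ ∈ A <;> simp [hA]

variable {Y : Type v} [NormedAddCommGroup Y] [NormedSpace 𝕜 Y]

/-- The norm of the restriction of an operator to the functions supported in `A`. -/
noncomputable def nu (S : Z 𝕜 Γ →L[𝕜] Y) (A : Set Γ) : ℝ := ‖S.comp (PA 𝕜 A)‖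

theorem nu_mono (S : Z 𝕜 Γ →L[𝕜] Y) (A B : Set Γ) (h : A ⊆ B) : nu S A ≤ nu S B := by
  unfold nu
  rw [← PA_comp h, ← ContinuousLinearMap.comp_assoc]
  refine (ContinuousLinearMap.opNorm_comp_le _ _).trans ?_
  calc ‖S.comp (PA 𝕜 B)‖ * ‖(PA 𝕜 A)‖ ≤ ‖S.comp (PA 𝕜 B)‖ * 1 := by
        gcongr
        exact PA_norm_le A
    _ = _ := mul_one _

theorem nu_union (S : Z 𝕜 Γ →L[𝕜] Y) (A B : Set Γ) : nu S (A ∪ B) ≤ nu S A + nu S B := by
  have h1 : nu S (A ∪ B) ≤ nu S A + nu S (B \ A) := by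
    unfold nu
    rw [PA_union, ContinuousLinearMap.comp_add]
    exact norm_add_le _ _
  have h2 := nu_mono S (B \ A) B Set.sdiff_subset
  linarith

theorem nu_empty (S : Z 𝕜 Γ →L[𝕜] Y) : nu S ∅ = 0 := by
  unfold nu
  rw [PA_empty, ContinuousLinearMap.comp_zero, norm_zero]

theorem nu_nonneg (S : Z 𝕜 Γ →L[𝕜] Y) (A : Set Γ) : 0 ≤ nu S A := norm_nonneg _

theorem nu_comp_le (S : Z 𝕜 Γ →L[𝕜] Y) (y : StrongDual 𝕜 Y) (hy : ‖y‖ ≤ 1) (A : Set Γ) :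
    nu (y.comp S) A ≤ nu S A := by
  unfold nu
  rw [ContinuousLinearMap.comp_assoc]
  refine (ContinuousLinearMap.opNorm_comp_le _ _).trans ?_
  calc ‖y‖ * ‖S.comp (PA 𝕜 A)‖ ≤ 1 * ‖S.comp (PA 𝕜 A)‖ := by gcongr
    _ = _ := one_mul _

theorem exists_lt_of_lt_nu (S : Z 𝕜 Γ →L[𝕜] Y) {A : Set Γ} {ε : ℝ} (hε : 0 ≤ ε)
    (h : ε < nu S A) : ∃ f : Z 𝕜 Γ, ‖f‖ ≤ 1 ∧ ε < ‖S (PA 𝕜 A f)‖ := by
  by_contra hcon
  push Not at hcon
  have : nu S A ≤ ε := by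
    unfold nu
    apply opNorm_le_of_ball hε
    intro f hf
    exact hcon f hf
  linarith

theorem exists_functional (S : Z 𝕜 Γ →L[𝕜] Y) {A : Set Γ} {ε : ℝ} (hε : 0 ≤ ε)
    (h : ε < nu S A) : ∃ y : StrongDual 𝕜 Y, ‖y‖ ≤ 1 ∧ ε < nu (y.comp S) A := by
  obtain ⟨f, hf, hf2⟩ := exists_lt_of_lt_nu S hε h
  obtain ⟨y, hy1, hy2⟩ := exists_dual_vector'' 𝕜 (S (PA 𝕜 A f))
  refine ⟨y, hy1, lt_of_lt_of_le hf2 ?_⟩
  have h1 : ‖((y.comp S).comp (PA 𝕜 A)) f‖ ≤ nu (y.comp S) A * ‖f‖ :=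
    ContinuousLinearMap.le_opNorm _ _
  have h2 : ((y.comp S).comp (PA 𝕜 A)) f = (‖S (PA 𝕜 A f)‖ : 𝕜) := hy2
  rw [h2, RCLike.norm_ofReal, abs_of_nonneg (norm_nonneg _)] at h1
  calc ‖S (PA 𝕜 A f)‖ ≤ nu (y.comp S) A * ‖f‖ := h1
    _ ≤ nu (y.comp S) A * 1 := by
      gcongr
      exact nu_nonneg _ _
    _ = _ := mul_one _

theorem exhaustive {T : Z 𝕜 Γ →L[𝕜] Y} (hT : IsComplCont T) (A : ℕ → Set Γ)
    (hA : ∀ i j, i < j → Disjoint (A i) (A j)) : Tendsto (fun n => nu T (A n)) atTop (𝓝 0) := by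
  classical
  have hne : ∀ i j, i ≠ j → Disjoint (A i) (A j) := by
    intro i j hij
    rcases Nat.lt_or_gt_of_ne hij with h | h
    · exact hA i j h
    · exact (hA j i h).symm
  have h1 : ∀ n, ∃ f : Z 𝕜 Γ, ‖f‖ ≤ 1 ∧ nu T (A n) ≤ 2 * ‖T (PA 𝕜 (A n) f)‖ := by
    intro n
    rcases (nu_nonneg T (A n)).eq_or_lt with h | h
    · exact ⟨0, by simp, by rw [← h]; positivity⟩
    · obtain ⟨f, hf1, hf2⟩ := exists_lt_of_lt_nu T (A := A n) (ε := nu T (A n) / 2) (by linarith)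
        (by linarith)
      exact ⟨f, hf1, by linarith⟩
  choose f hf1 hf2 using h1
  have h2 := hT.tendsto_zero (u := fun n => PA 𝕜 (A n) (f n)) (M := 1) (by
    intro K c hc
    apply Z_norm_le zero_le_one
    intro γ
    rw [lp.coeFn_sum, Finset.sum_apply]
    by_cases hex : ∃ k, γ ∈ A k
    · obtain ⟨k, hk⟩ := hex
      have h3 : ∀ i ∈ Finset.range K, i ≠ k → (c i • PA 𝕜 (A i) (f i) : Z 𝕜 Γ) γ = 0 := by
        intro i _ hik
        have : γ ∉ A i := fun h => (Set.disjoint_left.mp (hne i k hik)) h hk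
        simp [PA_apply, this]
      by_cases hkK : k ∈ Finset.range K
      · rw [Finset.sum_eq_single_of_mem k hkK h3]
        rw [lp.coeFn_smul, Pi.smul_apply, smul_eq_mul, norm_mul]
        have h4 := Z_apply_le (PA 𝕜 (A k) (f k)) γ
        have h5 := PA_apply_norm_le (A k) (f k)
        calc ‖c k‖ * ‖(PA 𝕜 (A k) (f k)) γ‖ ≤ 1 * 1 := by
              gcongr
              · exact hc k
              · exact h4.trans (h5.trans (hf1 k))
          _ = 1 := one_mul 1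
      · rw [Finset.sum_eq_zero]
        · simp
        · intro i hi
          exact h3 i hi (fun h => hkK (h ▸ hi))
    · push Not at hex
      rw [Finset.sum_eq_zero]
      · simp
      · intro i _
        simp [PA_apply, hex i])
  have h3 : Tendsto (fun n => 2 * ‖T (PA 𝕜 (A n) (f n))‖) atTop (𝓝 0) := by
    have := h2.norm.const_mul 2
    simpa using this
  exact squeeze_zero (fun n => nu_nonneg _ _) hf2 h3

theorem control_T {T : Z 𝕜 Γ →L[𝕜] Y} (hT : IsComplCont T) {ε : ℝ} (hε : 0 < ε) :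
    ∃ (s : Finset {y : StrongDual 𝕜 Y // ‖y‖ ≤ 1}) (δ : ℝ), 0 < δ ∧
      ∀ A, (∀ y ∈ s, nu ((y : StrongDual 𝕜 Y).comp T) A ≤ δ) → nu T A ≤ ε := by
  refine control (fun A => nu T A)
    (fun (y : {y : StrongDual 𝕜 Y // ‖y‖ ≤ 1}) A => nu ((y : StrongDual 𝕜 Y).comp T) A)
    (nu_mono T) (nu_union T) (fun y => nu_mono _) (fun y => nu_union _)
    (fun y => (nu_empty _).le) (exhaustive hT) (fun y A => nu_comp_le T y y.2 A) hε ?_
  intro A hA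
  obtain ⟨y, hy1, hy2⟩ := exists_functional T hε.le hA
  exact ⟨⟨y, hy1⟩, hy2⟩

/-- The quadratic functional attached to `μ`: the supremum of `|μ(h)|` over `|h| ≤ |f|²`. -/
noncomputable def qd (μ : StrongDual 𝕜 (Z 𝕜 Γ)) (f : Z 𝕜 Γ) : ℝ :=
  sSup {r : ℝ | ∃ h : Z 𝕜 Γ, (∀ γ, ‖h γ‖ ≤ ‖f γ‖ ^ 2) ∧ r = ‖μ h‖}

theorem qd_bdd (μ : StrongDual 𝕜 (Z 𝕜 Γ)) (f : Z 𝕜 Γ) :
    ∀ r ∈ {r : ℝ | ∃ h : Z 𝕜 Γ, (∀ γ, ‖h γ‖ ≤ ‖f γ‖ ^ 2) ∧ r = ‖μ h‖}, r ≤ ‖μ‖ * ‖f‖ ^ 2 := by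
  rintro r ⟨h, hh, rfl⟩
  refine (μ.le_opNorm h).trans ?_
  gcongr
  apply Z_norm_le (by positivity)
  intro γ
  refine (hh γ).trans ?_
  gcongr
  exact Z_apply_le f γ

theorem le_qd (μ : StrongDual 𝕜 (Z 𝕜 Γ)) (f h : Z 𝕜 Γ) (hh : ∀ γ, ‖h γ‖ ≤ ‖f γ‖ ^ 2) :
    ‖μ h‖ ≤ qd μ f :=
  le_csSup ⟨_, qd_bdd μ f⟩ ⟨h, hh, rfl⟩

theorem qd_nonneg (μ : StrongDual 𝕜 (Z 𝕜 Γ)) (f : Z 𝕜 Γ) : 0 ≤ qd μ f := by
  have := le_qd μ f 0 (by intro γ; simp)
  simpa using this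

theorem qd_le (μ : StrongDual 𝕜 (Z 𝕜 Γ)) (f : Z 𝕜 Γ) : qd μ f ≤ ‖μ‖ * ‖f‖ ^ 2 := by
  apply csSup_le
  · exact ⟨‖μ 0‖, 0, by intro γ; simp, rfl⟩
  · exact qd_bdd μ f

theorem qd_parallelogram (μ : StrongDual 𝕜 (Z 𝕜 Γ)) (f g : Z 𝕜 Γ) :
    qd μ ((1 / 2 : 𝕜) • (f - g)) + qd μ ((1 / 2 : 𝕜) • (f + g)) ≤ (qd μ f + qd μ g) / 2 := by
  have hne : ∀ f : Z 𝕜 Γ,
      {r : ℝ | ∃ h : Z 𝕜 Γ, (∀ γ, ‖h γ‖ ≤ ‖f γ‖ ^ 2) ∧ r = ‖μ h‖}.Nonempty :=
    fun f => ⟨‖μ 0‖, 0, by intro γ; simp, rfl⟩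
  have key : ∀ h1 h2 : Z 𝕜 Γ, (∀ γ, ‖h1 γ‖ ≤ ‖((1 / 2 : 𝕜) • (f - g) : Z 𝕜 Γ) γ‖ ^ 2) →
      (∀ γ, ‖h2 γ‖ ≤ ‖((1 / 2 : 𝕜) • (f + g) : Z 𝕜 Γ) γ‖ ^ 2) →
      ‖μ h1‖ + ‖μ h2‖ ≤ (qd μ f + qd μ g) / 2 := by
    intro h1 h2 hh1 hh2
    obtain ⟨c1, hc1, hc1'⟩ := exists_phase (μ h1)
    obtain ⟨c2, hc2, hc2'⟩ := exists_phase (μ h2)
    have hhalf : ‖(1 / 2 : 𝕜)‖ = 1 / 2 := by
      rw [norm_div, norm_one, RCLike.norm_ofNat]
    -- the pointwise bound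
    have hb : ∀ γ, ‖(c1 • h1 + c2 • h2 : Z 𝕜 Γ) γ‖ ≤ (‖f γ‖ ^ 2 + ‖g γ‖ ^ 2) / 2 := by
      intro γ
      have e1 : ‖(c1 • h1 + c2 • h2 : Z 𝕜 Γ) γ‖ ≤ ‖h1 γ‖ + ‖h2 γ‖ := by
        rw [lp.coeFn_add, Pi.add_apply, lp.coeFn_smul, lp.coeFn_smul, Pi.smul_apply, Pi.smul_apply,
          smul_eq_mul, smul_eq_mul]
        refine (norm_add_le _ _).trans ?_
        rw [norm_mul, norm_mul]
        have a1 := mul_le_mul_of_nonneg_right hc1 (norm_nonneg (h1 γ))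
        have a2 := mul_le_mul_of_nonneg_right hc2 (norm_nonneg (h2 γ))
        linarith
      have e2 := hh1 γ
      have e3 := hh2 γ
      rw [lp.coeFn_smul, Pi.smul_apply, smul_eq_mul, norm_mul, hhalf, lp.coeFn_sub,
        Pi.sub_apply] at e2
      rw [lp.coeFn_smul, Pi.smul_apply, smul_eq_mul, norm_mul, hhalf, lp.coeFn_add,
        Pi.add_apply] at e3
      have e4 : ‖f γ + g γ‖ ^ 2 + ‖f γ - g γ‖ ^ 2 =
          2 * (‖f γ‖ ^ 2 + ‖g γ‖ ^ 2) := parallelogram_law_with_norm 𝕜 (f γ) (g γ)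
      nlinarith
    -- decomposition
    have hdec : ∃ k1 k2 : Z 𝕜 Γ, (∀ γ, ‖k1 γ‖ ≤ ‖f γ‖ ^ 2) ∧ (∀ γ, ‖k2 γ‖ ≤ ‖g γ‖ ^ 2) ∧
        (c1 • h1 + c2 • h2 : Z 𝕜 Γ) = (1 / 2 : 𝕜) • k1 + (1 / 2 : 𝕜) • k2 := by
      set w : Z 𝕜 Γ := c1 • h1 + c2 • h2 with hw
      have hA : ∀ γ, ‖w γ * ((2 * (‖f γ‖ ^ 2 / (‖f γ‖ ^ 2 + ‖g γ‖ ^ 2)) : ℝ) : 𝕜)‖ ≤ ‖f γ‖ ^ 2 := by
        intro γ
        rw [norm_mul, RCLike.norm_ofReal, abs_of_nonneg (by positivity)]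
        rcases eq_or_ne (‖f γ‖ ^ 2 + ‖g γ‖ ^ 2) 0 with h0 | h0
        · rw [h0, div_zero, mul_zero, mul_zero]; positivity
        · have hpos : 0 < ‖f γ‖ ^ 2 + ‖g γ‖ ^ 2 := lt_of_le_of_ne (by positivity) (Ne.symm h0)
          calc ‖w γ‖ * (2 * (‖f γ‖ ^ 2 / (‖f γ‖ ^ 2 + ‖g γ‖ ^ 2)))
              ≤ (‖f γ‖ ^ 2 + ‖g γ‖ ^ 2) / 2 * (2 * (‖f γ‖ ^ 2 / (‖f γ‖ ^ 2 + ‖g γ‖ ^ 2))) := by
                gcongr
                exact hb γ
            _ = ‖f γ‖ ^ 2 := by field_simp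
      have hB : ∀ γ, ‖w γ * ((2 * (‖g γ‖ ^ 2 / (‖f γ‖ ^ 2 + ‖g γ‖ ^ 2)) : ℝ) : 𝕜)‖ ≤ ‖g γ‖ ^ 2 := by
        intro γ
        rw [norm_mul, RCLike.norm_ofReal, abs_of_nonneg (by positivity)]
        rcases eq_or_ne (‖f γ‖ ^ 2 + ‖g γ‖ ^ 2) 0 with h0 | h0
        · rw [h0, div_zero, mul_zero, mul_zero]; positivity
        · have hpos : 0 < ‖f γ‖ ^ 2 + ‖g γ‖ ^ 2 := lt_of_le_of_ne (by positivity) (Ne.symm h0)
          calc ‖w γ‖ * (2 * (‖g γ‖ ^ 2 / (‖f γ‖ ^ 2 + ‖g γ‖ ^ 2)))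
              ≤ (‖f γ‖ ^ 2 + ‖g γ‖ ^ 2) / 2 * (2 * (‖g γ‖ ^ 2 / (‖f γ‖ ^ 2 + ‖g γ‖ ^ 2))) := by
                gcongr
                exact hb γ
            _ = ‖g γ‖ ^ 2 := by field_simp
      refine ⟨mkZ (fun γ => w γ * ((2 * (‖f γ‖ ^ 2 / (‖f γ‖ ^ 2 + ‖g γ‖ ^ 2)) : ℝ) : 𝕜)) (‖f‖ ^ 2)
          (fun γ => (hA γ).trans (by gcongr; exact Z_apply_le f γ)),
        mkZ (fun γ => w γ * ((2 * (‖g γ‖ ^ 2 / (‖f γ‖ ^ 2 + ‖g γ‖ ^ 2)) : ℝ) : 𝕜)) (‖g‖ ^ 2)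
          (fun γ => (hB γ).trans (by gcongr; exact Z_apply_le g γ)), hA, hB, ?_⟩
      apply lp.ext
      funext γ
      simp only [lp.coeFn_add, Pi.add_apply, lp.coeFn_smul, Pi.smul_apply, smul_eq_mul, mkZ_apply]
      rcases eq_or_ne (‖f γ‖ ^ 2 + ‖g γ‖ ^ 2) 0 with h0 | h0
      · have h1 : ‖w γ‖ ≤ 0 := by
          have := hb γ
          rw [h0] at this
          simpa using this
        have h2 : w γ = 0 := norm_le_zero_iff.mp h1
        rw [h2]; simp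
      · have h1 : ((2 * (‖f γ‖ ^ 2 / (‖f γ‖ ^ 2 + ‖g γ‖ ^ 2)) : ℝ) : 𝕜) +
            ((2 * (‖g γ‖ ^ 2 / (‖f γ‖ ^ 2 + ‖g γ‖ ^ 2)) : ℝ) : 𝕜) = 2 := by
          rw [← RCLike.ofReal_add]
          have : 2 * (‖f γ‖ ^ 2 / (‖f γ‖ ^ 2 + ‖g γ‖ ^ 2)) +
              2 * (‖g γ‖ ^ 2 / (‖f γ‖ ^ 2 + ‖g γ‖ ^ 2)) = (2 : ℝ) := by field_simp
          rw [this, RCLike.ofReal_ofNat]
        have h2 : 1 / 2 * (w γ * ((2 * (‖f γ‖ ^ 2 / (‖f γ‖ ^ 2 + ‖g γ‖ ^ 2)) : ℝ) : 𝕜)) +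
            1 / 2 * (w γ * ((2 * (‖g γ‖ ^ 2 / (‖f γ‖ ^ 2 + ‖g γ‖ ^ 2)) : ℝ) : 𝕜)) =
            1 / 2 * w γ * (((2 * (‖f γ‖ ^ 2 / (‖f γ‖ ^ 2 + ‖g γ‖ ^ 2)) : ℝ) : 𝕜) +
            ((2 * (‖g γ‖ ^ 2 / (‖f γ‖ ^ 2 + ‖g γ‖ ^ 2)) : ℝ) : 𝕜)) := by ring
        rw [h2, h1]
        ring
    obtain ⟨k1, k2, hk1, hk2, hk⟩ := hdec
    have hsum : μ (c1 • h1 + c2 • h2) = ((‖μ h1‖ + ‖μ h2‖ : ℝ) : 𝕜) := by
      rw [map_add, map_smul, map_smul, smul_eq_mul, smul_eq_mul, hc1', hc2', RCLike.ofReal_add]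
    have hnorm : ‖μ h1‖ + ‖μ h2‖ = ‖μ (c1 • h1 + c2 • h2)‖ := by
      rw [hsum, RCLike.norm_ofReal, abs_of_nonneg (by positivity)]
    rw [hnorm, hk, map_add, map_smul, map_smul]
    refine (norm_add_le _ _).trans ?_
    rw [smul_eq_mul, smul_eq_mul, norm_mul, norm_mul, hhalf]
    have e1 := le_qd μ f k1 hk1
    have e2 := le_qd μ g k2 hk2
    linarith
  -- pass to suprema
  have step : ∀ h1 : Z 𝕜 Γ, (∀ γ, ‖h1 γ‖ ≤ ‖((1 / 2 : 𝕜) • (f - g) : Z 𝕜 Γ) γ‖ ^ 2) →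
      ‖μ h1‖ + qd μ ((1 / 2 : 𝕜) • (f + g)) ≤ (qd μ f + qd μ g) / 2 := by
    intro h1 hh1
    have : qd μ ((1 / 2 : 𝕜) • (f + g)) ≤ (qd μ f + qd μ g) / 2 - ‖μ h1‖ := by
      apply csSup_le (hne _)
      rintro r ⟨h2, hh2, rfl⟩
      have := key h1 h2 hh1 hh2
      linarith
    linarith
  have : qd μ ((1 / 2 : 𝕜) • (f - g)) ≤
      (qd μ f + qd μ g) / 2 - qd μ ((1 / 2 : 𝕜) • (f + g)) := by
    apply csSup_le (hne _)
    rintro r ⟨h1, hh1, rfl⟩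
    have := step h1 hh1
    linarith
  linarith

theorem nu_le_qd (μ : StrongDual 𝕜 (Z 𝕜 Γ)) (f : Z 𝕜 Γ) {t : ℝ} (ht : 0 < t) :
    t ^ 2 * nu μ {γ | t ≤ ‖f γ‖} ≤ qd μ f := by
  classical
  have h1 : nu μ {γ | t ≤ ‖f γ‖} ≤ qd μ f / t ^ 2 := by
    unfold nu
    apply opNorm_le_of_ball (by have := qd_nonneg μ f; positivity)
    intro g hg
    rw [le_div_iff₀ (by positivity)]
    have h2 := le_qd μ f (((t ^ 2 : ℝ) : 𝕜) • PA 𝕜 {γ | t ≤ ‖f γ‖} g) (by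
      intro γ
      rw [lp.coeFn_smul, Pi.smul_apply, PA_apply, smul_eq_mul, norm_mul, RCLike.norm_ofReal,
        abs_of_nonneg (by positivity)]
      by_cases hγ : γ ∈ {γ | t ≤ ‖f γ‖}
      · rw [if_pos hγ]
        have h3 : ‖g γ‖ ≤ 1 := (Z_apply_le g γ).trans hg
        have h4 : t ≤ ‖f γ‖ := hγ
        calc t ^ 2 * ‖g γ‖ ≤ ‖f γ‖ ^ 2 * 1 := by gcongr
          _ = _ := mul_one _
      · rw [if_neg hγ, norm_zero, mul_zero]; positivity)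
    rw [map_smul, smul_eq_mul, norm_mul, RCLike.norm_ofReal, abs_of_nonneg (by positivity)] at h2
    rw [mul_comm]
    exact h2
  rw [le_div_iff₀ (by positivity)] at h1
  linarith

/-- The main estimate. -/
theorem main_estimate {T : Z 𝕜 Γ →L[𝕜] Y} (hT : IsComplCont T) {ε : ℝ} (hε : 0 < ε) :
    ∃ (q : Z 𝕜 Γ → ℝ) (C η : ℝ), 0 < η ∧ (∀ f, 0 ≤ q f) ∧ (∀ f, ‖f‖ ≤ 1 → q f ≤ C) ∧
      (∀ f g, q ((1 / 2 : 𝕜) • (f - g)) + q ((1 / 2 : 𝕜) • (f + g)) ≤ (q f + q g) / 2) ∧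
      (∀ f, ‖f‖ ≤ 1 → q f ≤ η → ‖T f‖ ≤ ε) := by
  classical
  obtain ⟨s, δ, hδ, hs⟩ := control_T hT (half_pos hε)
  set t : ℝ := ε / (2 * (‖T‖ + 1)) with ht
  have htpos : 0 < t := by positivity
  refine ⟨fun f => ∑ y ∈ s, qd ((y : StrongDual 𝕜 Y).comp T) f,
    ∑ y ∈ s, ‖(y : StrongDual 𝕜 Y).comp T‖, t ^ 2 * δ, by positivity, ?_, ?_, ?_, ?_⟩
  · intro f
    exact Finset.sum_nonneg (fun y _ => qd_nonneg _ _)
  · intro f hf
    apply Finset.sum_le_sum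
    intro y _
    refine (qd_le _ _).trans ?_
    calc ‖(y : StrongDual 𝕜 Y).comp T‖ * ‖f‖ ^ 2 ≤ ‖(y : StrongDual 𝕜 Y).comp T‖ * 1 ^ 2 := by gcongr
      _ = _ := by ring
  · intro f g
    rw [← Finset.sum_add_distrib, ← Finset.sum_add_distrib, Finset.sum_div]
    apply Finset.sum_le_sum
    intro y _
    exact qd_parallelogram _ f g
  · intro f hf hq
    have h1 : nu T {γ | t ≤ ‖f γ‖} ≤ ε / 2 := by
      apply hs
      intro y hy
      have h2 := nu_le_qd ((y : StrongDual 𝕜 Y).comp T) f htpos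
      have h3 : qd ((y : StrongDual 𝕜 Y).comp T) f ≤
          ∑ y ∈ s, qd ((y : StrongDual 𝕜 Y).comp T) f :=
        Finset.single_le_sum (f := fun y : {y : StrongDual 𝕜 Y // ‖y‖ ≤ 1} =>
          qd ((y : StrongDual 𝕜 Y).comp T) f) (fun y _ => qd_nonneg _ _) hy
      have h4 : t ^ 2 * nu ((y : StrongDual 𝕜 Y).comp T) {γ | t ≤ ‖f γ‖} ≤ t ^ 2 * δ := by
        linarith
      exact le_of_mul_le_mul_left h4 (by positivity)
    have h2 : ‖T (PA 𝕜 {γ | t ≤ ‖f γ‖} f)‖ ≤ ε / 2 := by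
      calc ‖T (PA 𝕜 {γ | t ≤ ‖f γ‖} f)‖ = ‖(T.comp (PA 𝕜 {γ | t ≤ ‖f γ‖})) f‖ := rfl
        _ ≤ ‖T.comp (PA 𝕜 {γ | t ≤ ‖f γ‖})‖ * ‖f‖ := ContinuousLinearMap.le_opNorm _ _
        _ ≤ ε / 2 * 1 := by
          gcongr
          exact h1
        _ = _ := mul_one _
    have h3 : ‖T (PA 𝕜 {γ | t ≤ ‖f γ‖}ᶜ f)‖ ≤ ε / 2 := by
      calc ‖T (PA 𝕜 {γ | t ≤ ‖f γ‖}ᶜ f)‖ ≤ ‖T‖ * ‖PA 𝕜 {γ | t ≤ ‖f γ‖}ᶜ f‖ :=
            ContinuousLinearMap.le_opNorm _ _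
        _ ≤ (‖T‖ + 1) * t := by
          gcongr
          · linarith
          · apply Z_norm_le htpos.le
            intro γ
            rw [PA_apply]
            split_ifs with h
            · have : ¬ t ≤ ‖f γ‖ := h
              linarith
            · simpa using htpos.le
        _ = ε / 2 := by
          rw [ht]
          have : ‖T‖ + 1 ≠ 0 := by positivity
          field_simp
    rw [PA_compl {γ | t ≤ ‖f γ‖} f, map_add]
    exact (norm_add_le _ _).trans (by linarith)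

end Linf

/-! ## Weak compactness -/

section UWC

variable {𝕜 : Type} [RCLike 𝕜] {X : Type u} [NormedAddCommGroup X] [NormedSpace 𝕜 X]
    {Y : Type v} [NormedAddCommGroup Y] [NormedSpace 𝕜 Y] {W : Type w} [NormedAddCommGroup W]
    [NormedSpace 𝕜 W]

/-- Weak compactness of an operator in terms of ultrafilters. -/
def UWC (T : X →L[𝕜] Y) : Prop :=
  ∀ 𝒰 : Ultrafilter X, Metric.closedBall (0 : X) 1 ∈ 𝒰 →
    ∃ y : Y, ∀ φ : StrongDual 𝕜 Y, Tendsto (fun x => φ (T x)) 𝒰 (𝓝 (φ y))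

omit [NormedAddCommGroup X] [NormedSpace 𝕜 X] in
theorem exists_lim (𝒰 : Ultrafilter X) {g : X → 𝕜} {C : ℝ} {s : Set X} (hs : s ∈ 𝒰)
    (h : ∀ x ∈ s, ‖g x‖ ≤ C) : ∃ l, Tendsto g 𝒰 (𝓝 l) := by
  have h1 : IsCompact (Metric.closedBall (0 : 𝕜) C) := isCompact_closedBall _ _
  have h2 : (Metric.closedBall (0 : 𝕜) C) ∈ 𝒰.map g := by
    rw [Ultrafilter.mem_map]
    filter_upwards [hs] with x hx
    simpa using h x hx
  obtain ⟨l, _, hl⟩ := h1.ultrafilter_le_nhds (𝒰.map g) (le_principal_iff.mpr h2)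
  exact ⟨l, hl⟩

theorem exists_lims (T : X →L[𝕜] Y) (𝒰 : Ultrafilter X) (h𝒰 : Metric.closedBall (0 : X) 1 ∈ 𝒰) :
    ∃ F : StrongDual 𝕜 Y → 𝕜, ∀ φ : StrongDual 𝕜 Y, Tendsto (fun x => φ (T x)) 𝒰 (𝓝 (F φ)) := by
  have : ∀ φ : StrongDual 𝕜 Y, ∃ l, Tendsto (fun x => φ (T x)) 𝒰 (𝓝 l) := by
    intro φ
    refine exists_lim 𝒰 (C := ‖φ.comp T‖) h𝒰 ?_
    intro x hx
    have h1 : ‖x‖ ≤ 1 := by simpa using hx
    calc ‖φ (T x)‖ = ‖(φ.comp T) x‖ := rfl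
      _ ≤ ‖φ.comp T‖ * ‖x‖ := ContinuousLinearMap.le_opNorm _ _
      _ ≤ ‖φ.comp T‖ * 1 := by gcongr
      _ = _ := mul_one _
  choose F hF using this
  exact ⟨F, hF⟩

/-- Approximate representability implies representability in a Banach space. -/
theorem represent [CompleteSpace Y] {F : StrongDual 𝕜 Y → 𝕜}
    (h : ∀ ε > 0, ∃ y : Y, ∀ φ : StrongDual 𝕜 Y, ‖F φ - φ y‖ ≤ ε * ‖φ‖) :
    ∃ y : Y, ∀ φ : StrongDual 𝕜 Y, F φ = φ y := by
  choose! y hy using h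
  have hpos : ∀ n : ℕ, (0 : ℝ) < 1 / ((n : ℝ) + 1) := fun n => by positivity
  set z : ℕ → Y := fun n => y (1 / ((n : ℝ) + 1)) with hz
  have hzz : ∀ m n, ‖z m - z n‖ ≤ 1 / ((m : ℝ) + 1) + 1 / ((n : ℝ) + 1) := by
    intro m n
    apply NormedSpace.norm_le_dual_bound 𝕜 _ (by positivity)
    intro φ
    have h1 := hy _ (hpos m) φ
    have h2 := hy _ (hpos n) φ
    have h3 : φ (z m - z n) = (F φ - φ (z n)) - (F φ - φ (z m)) := by
      rw [map_sub]; ring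
    rw [h3]
    refine (norm_sub_le _ _).trans ?_
    have h4 : ‖F φ - φ (z m)‖ ≤ 1 / ((m : ℝ) + 1) * ‖φ‖ := h1
    have h5 : ‖F φ - φ (z n)‖ ≤ 1 / ((n : ℝ) + 1) * ‖φ‖ := h2
    linarith
  have hcauchy : CauchySeq z := by
    rw [Metric.cauchySeq_iff]
    intro ε hε
    obtain ⟨N, hN⟩ := exists_nat_gt (2 / ε)
    have hN0 : 0 < (N : ℝ) := lt_trans (by positivity) hN
    refine ⟨N, fun m hm n hn => ?_⟩
    rw [dist_eq_norm]
    have e1 : 1 / ((m : ℝ) + 1) < 1 / N := by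
      apply one_div_lt_one_div_of_lt hN0
      have : (N : ℝ) ≤ m := by exact_mod_cast hm
      linarith
    have e2 : 1 / ((n : ℝ) + 1) < 1 / N := by
      apply one_div_lt_one_div_of_lt hN0
      have : (N : ℝ) ≤ n := by exact_mod_cast hn
      linarith
    have e3 : 1 / (N : ℝ) < ε / 2 := by
      rw [div_lt_div_iff₀ hN0 (by norm_num)]
      rw [div_lt_iff₀ hε] at hN
      linarith
    linarith [hzz m n]
  obtain ⟨y0, hy0⟩ := cauchySeq_tendsto_of_complete hcauchy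
  refine ⟨y0, fun φ => ?_⟩
  have h1 : Tendsto (fun n => φ (z n)) atTop (𝓝 (φ y0)) := (φ.continuous.tendsto _).comp hy0
  have h2 : Tendsto (fun n => φ (z n)) atTop (𝓝 (F φ)) := by
    rw [tendsto_iff_norm_sub_tendsto_zero]
    have h3 : ∀ n, ‖φ (z n) - F φ‖ ≤ 1 / ((n : ℝ) + 1) * ‖φ‖ := by
      intro n
      rw [norm_sub_rev]
      exact hy _ (hpos n) φ
    have h4 : Tendsto (fun n : ℕ => 1 / ((n : ℝ) + 1) * ‖φ‖) atTop (𝓝 (0 * ‖φ‖)) :=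
      (tendsto_one_div_add_atTop_nhds_zero_nat (𝕜 := ℝ)).mul_const _
    rw [zero_mul] at h4
    exact squeeze_zero (fun _ => norm_nonneg _) h3 h4
  exact tendsto_nhds_unique h2 h1

/-- The criterion used for operators on spaces of bounded functions. -/
theorem UWC.of_quadratic [CompleteSpace Y] {T : X →L[𝕜] Y}
    (h : ∀ ε > 0, ∃ (q : X → ℝ) (C η : ℝ), 0 < η ∧ (∀ f, 0 ≤ q f) ∧ (∀ f, ‖f‖ ≤ 1 → q f ≤ C) ∧
      (∀ f g, q ((1 / 2 : 𝕜) • (f - g)) + q ((1 / 2 : 𝕜) • (f + g)) ≤ (q f + q g) / 2) ∧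
      (∀ f, ‖f‖ ≤ 1 → q f ≤ η → ‖T f‖ ≤ ε)) : UWC T := by
  classical
  intro 𝒰 h𝒰
  obtain ⟨F, hF⟩ := exists_lims T 𝒰 h𝒰
  have hhalf : ‖(1 / 2 : 𝕜)‖ = 1 / 2 := by
    rw [norm_div, norm_one, RCLike.norm_ofNat]
  have key : ∀ ε > 0, ∃ y : Y, ∀ φ : StrongDual 𝕜 Y, ‖F φ - φ y‖ ≤ ε * ‖φ‖ := by
    intro ε hε
    obtain ⟨q, C, η, hη, hq0, hqC, hqp, hqT⟩ := h (ε / 2) (half_pos hε)
    let S : Set ℝ := {r | ∃ (Φ : Finset (StrongDual 𝕜 Y)) (τ : ℝ), 0 < τ ∧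
      ∀ f : X, ‖f‖ ≤ 1 → (∀ φ ∈ Φ, ‖φ (T f) - F φ‖ < τ) → r ≤ q f}
    have hex : ∀ (Φ : Finset (StrongDual 𝕜 Y)) (τ : ℝ), 0 < τ →
        ∃ f : X, ‖f‖ ≤ 1 ∧ ∀ φ ∈ Φ, ‖φ (T f) - F φ‖ < τ := by
      intro Φ τ hτ
      have h1 : ∀ᶠ f in (𝒰 : Filter X), ∀ φ ∈ Φ, ‖φ (T f) - F φ‖ < τ := by
        rw [Filter.eventually_all_finset]
        intro φ _
        have := (hF φ).eventually (Metric.ball_mem_nhds (F φ) hτ)
        filter_upwards [this] with f hf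
        simpa [dist_eq_norm] using hf
      obtain ⟨f, hf1, hf2⟩ := (h1.and h𝒰).exists
      exact ⟨f, by simpa using hf2, hf1⟩
    have hSne : S.Nonempty := ⟨0, ∅, 1, one_pos, fun f _ _ => hq0 f⟩
    have hSb : BddAbove S := by
      refine ⟨C, ?_⟩
      rintro r ⟨Φ, τ, hτ, hr⟩
      obtain ⟨f, hf1, hf2⟩ := hex Φ τ hτ
      exact (hr f hf1 hf2).trans (hqC f hf1)
    set s := sSup S with hs
    obtain ⟨r0, ⟨Φ0, τ0, hτ0, hr0⟩, hr0s⟩ := exists_lt_of_lt_csSup hSne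
      (show s - η / 2 < s by linarith)
    have hgood : ∀ (Φ : Finset (StrongDual 𝕜 Y)) (τ : ℝ), 0 < τ →
        ∃ f : X, ‖f‖ ≤ 1 ∧ (∀ φ ∈ Φ, ‖φ (T f) - F φ‖ < τ) ∧ q f < s + η / 2 := by
      intro Φ τ hτ
      by_contra hcon
      push Not at hcon
      have : s + η / 2 ∈ S := ⟨Φ, τ, hτ, fun f hf1 hf2 => hcon f hf1 hf2⟩
      have := le_csSup hSb this
      linarith
    obtain ⟨f0, hf01, hf02, hf03⟩ := hgood Φ0 τ0 hτ0
    refine ⟨T f0, fun φ => ?_⟩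
    apply le_of_forall_pos_le_add
    intro τ hτ
    obtain ⟨f, hf1, hf2, hf3⟩ := hgood (insert φ Φ0) (min τ τ0) (lt_min hτ hτ0)
    have hmid : r0 ≤ q ((1 / 2 : 𝕜) • (f + f0)) := by
      apply hr0
      · rw [norm_smul, hhalf]
        have := norm_add_le f f0
        linarith
      · intro ψ hψ
        have e1 := (hf2 ψ (Finset.mem_insert_of_mem hψ)).trans_le (min_le_right _ _)
        have e2 := hf02 ψ hψ
        have e3 : ψ (T ((1 / 2 : 𝕜) • (f + f0))) - F ψ =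
            (1 / 2 : 𝕜) * ((ψ (T f) - F ψ) + (ψ (T f0) - F ψ)) := by
          rw [map_smul, map_smul, map_add, map_add, smul_eq_mul]
          ring
        rw [e3, norm_mul, hhalf]
        have := norm_add_le (ψ (T f) - F ψ) (ψ (T f0) - F ψ)
        linarith
    have hdiff : q ((1 / 2 : 𝕜) • (f - f0)) ≤ η := by
      have := hqp f f0
      linarith
    have hn : ‖(1 / 2 : 𝕜) • (f - f0)‖ ≤ 1 := by
      rw [norm_smul, hhalf]
      have := norm_sub_le f f0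
      linarith
    have hT := hqT _ hn hdiff
    rw [map_smul, norm_smul, hhalf, map_sub] at hT
    have hT' : ‖T f - T f0‖ ≤ ε := by linarith
    have e1 := (hf2 φ (Finset.mem_insert_self _ _)).trans_le (min_le_left _ _)
    have e2 : F φ - φ (T f0) = φ (T f - T f0) - (φ (T f) - F φ) := by
      rw [map_sub]; ring
    rw [e2]
    refine (norm_sub_le _ _).trans ?_
    have e3 : ‖φ (T f - T f0)‖ ≤ ‖φ‖ * ‖T f - T f0‖ := φ.le_opNorm _
    have e4 : ‖φ‖ * ‖T f - T f0‖ ≤ ‖φ‖ * ε := by gcongr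
    linarith
  obtain ⟨y, hy⟩ := represent key
  exact ⟨y, fun φ => by rw [← hy φ]; exact hF φ⟩

theorem UWC.comp {T : X →L[𝕜] Y} (hT : UWC T) (R : W →L[𝕜] X) : UWC (T.comp R) := by
  intro 𝒰 h𝒰
  set c : ℝ := ‖R‖ + 1 with hc
  have hc0 : 0 < c := by positivity
  have h1 : Metric.closedBall (0 : X) 1 ∈ 𝒰.map (fun w => ((c⁻¹ : ℝ) : 𝕜) • R w) := by
    rw [Ultrafilter.mem_map]
    filter_upwards [h𝒰] with w hw
    have hw' : ‖w‖ ≤ 1 := by simpa using hw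
    simp only [Set.mem_preimage, Metric.mem_closedBall, dist_zero_right]
    rw [norm_smul, RCLike.norm_ofReal, abs_of_nonneg (by positivity), inv_mul_le_iff₀ hc0, mul_one]
    calc ‖R w‖ ≤ ‖R‖ * ‖w‖ := R.le_opNorm w
      _ ≤ ‖R‖ * 1 := by gcongr
      _ ≤ c := by rw [hc]; linarith
  obtain ⟨y, hy⟩ := hT _ h1
  refine ⟨(c : 𝕜) • y, fun φ => ?_⟩
  have h2 := hy φ
  have h3 : Tendsto (fun w => φ (T (((c⁻¹ : ℝ) : 𝕜) • R w))) (𝒰 : Filter W) (𝓝 (φ y)) := h2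
  have h4 := h3.const_mul (c : 𝕜)
  rw [map_smul, smul_eq_mul]
  refine h4.congr (fun w => ?_)
  rw [map_smul, map_smul, smul_eq_mul, ← mul_assoc, ← RCLike.ofReal_mul, mul_inv_cancel₀ hc0.ne']
  simp

theorem UWC.add {T S : X →L[𝕜] Y} (hT : UWC T) (hS : UWC S) : UWC (T + S) := by
  intro 𝒰 h𝒰
  obtain ⟨y, hy⟩ := hT 𝒰 h𝒰
  obtain ⟨z, hz⟩ := hS 𝒰 h𝒰
  refine ⟨y + z, fun φ => ?_⟩
  rw [map_add]
  refine ((hy φ).add (hz φ)).congr (fun x => ?_)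
  rw [_root_.add_apply, map_add]

theorem UWC.zero : UWC (0 : X →L[𝕜] Y) := by
  intro 𝒰 _
  refine ⟨0, fun φ => ?_⟩
  simp

theorem UWC.sum {ι : Type*} (s : Finset ι) {T : ι → X →L[𝕜] Y} (hT : ∀ i ∈ s, UWC (T i)) :
    UWC (∑ i ∈ s, T i) := by
  classical
  induction s using Finset.induction_on with
  | empty => simpa using UWC.zero
  | insert a s ha ih =>
    rw [Finset.sum_insert ha]
    exact (hT a (Finset.mem_insert_self _ _)).add
      (ih (fun i hi => hT i (Finset.mem_insert_of_mem hi)))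

theorem UWC.of_approx [CompleteSpace Y] {T : X →L[𝕜] Y}
    (h : ∀ ε > 0, ∃ S : X →L[𝕜] Y, UWC S ∧ ‖T - S‖ ≤ ε) : UWC T := by
  intro 𝒰 h𝒰
  obtain ⟨F, hF⟩ := exists_lims T 𝒰 h𝒰
  have key : ∀ ε > 0, ∃ y : Y, ∀ φ : StrongDual 𝕜 Y, ‖F φ - φ y‖ ≤ ε * ‖φ‖ := by
    intro ε hε
    obtain ⟨S, hS, hTS⟩ := h ε hε
    obtain ⟨y, hy⟩ := hS 𝒰 h𝒰
    refine ⟨y, fun φ => ?_⟩
    have h1 := ((hF φ).sub (hy φ)).norm
    refine le_of_tendsto h1 ?_
    filter_upwards [h𝒰] with x hx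
    have hx' : ‖x‖ ≤ 1 := by simpa using hx
    calc ‖φ (T x) - φ (S x)‖ = ‖φ ((T - S) x)‖ := by rw [← map_sub]; rfl
      _ ≤ ‖φ‖ * ‖(T - S) x‖ := φ.le_opNorm _
      _ ≤ ‖φ‖ * (‖T - S‖ * ‖x‖) := by gcongr; exact (T - S).le_opNorm x
      _ ≤ ‖φ‖ * (ε * 1) := by gcongr
      _ = ε * ‖φ‖ := by ring
  obtain ⟨y, hy⟩ := represent key
  exact ⟨y, fun φ => by rw [← hy φ]; exact hF φ⟩

theorem UWC.of_quotient {T : X →L[𝕜] Y} {Q : W →L[𝕜] X} {C : ℝ} (hC : 0 < C)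
    (hQ : ∀ x, ∃ w, Q w = x ∧ ‖w‖ ≤ C * ‖x‖) (h : UWC (T.comp Q)) : UWC T := by
  choose s hs1 hs2 using hQ
  intro 𝒰 h𝒰
  have h1 : Metric.closedBall (0 : W) 1 ∈ 𝒰.map (fun x => ((C⁻¹ : ℝ) : 𝕜) • s x) := by
    rw [Ultrafilter.mem_map]
    filter_upwards [h𝒰] with x hx
    have hx' : ‖x‖ ≤ 1 := by simpa using hx
    simp only [Set.mem_preimage, Metric.mem_closedBall, dist_zero_right]
    rw [norm_smul, RCLike.norm_ofReal, abs_of_nonneg (by positivity), inv_mul_le_iff₀ hC, mul_one]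
    calc ‖s x‖ ≤ C * ‖x‖ := hs2 x
      _ ≤ C * 1 := by gcongr
      _ = C := mul_one _
  obtain ⟨y, hy⟩ := h _ h1
  refine ⟨(C : 𝕜) • y, fun φ => ?_⟩
  have h3 : Tendsto (fun x => φ (T (Q (((C⁻¹ : ℝ) : 𝕜) • s x)))) (𝒰 : Filter X) (𝓝 (φ y)) := hy φ
  have h4 := h3.const_mul (C : 𝕜)
  rw [map_smul, smul_eq_mul]
  refine h4.congr (fun x => ?_)
  rw [map_smul, map_smul, map_smul, hs1, smul_eq_mul, ← mul_assoc, ← RCLike.ofReal_mul,
    mul_inv_cancel₀ hC.ne']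
  simp

theorem UWC.isWeaklyCompactOp {T : X →L[𝕜] Y} (hT : UWC T) : IsWeaklyCompactOp T := by
  unfold IsWeaklyCompactOp
  apply NormedSpace.isCompact_closure_of_isBounded
  · have h1 : (toWeakSpace 𝕜 Y) ⁻¹' (toWeakSpace 𝕜 Y '' (T '' Metric.closedBall 0 1)) =
        T '' Metric.closedBall 0 1 :=
      Set.preimage_image_eq _ (toWeakSpace 𝕜 Y).injective
    rw [h1]
    exact (Metric.isBounded_closedBall).image T
  · intro F hF
    rw [mem_closure_iff_ultrafilter] at hF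
    obtain ⟨u, hu1, hu2⟩ := hF
    set m : X → WeakDual 𝕜 (StrongDual 𝕜 Y) :=
      fun x => NormedSpace.inclusionInDoubleDualWeak 𝕜 Y (toWeakSpace 𝕜 Y (T x)) with hm
    have hu3 : m '' Metric.closedBall 0 1 ∈ u := by
      have : m '' Metric.closedBall 0 1 = (NormedSpace.inclusionInDoubleDualWeak 𝕜 Y) ''
          (toWeakSpace 𝕜 Y '' (T '' Metric.closedBall 0 1)) := by
        rw [Set.image_image, Set.image_image]
      rw [this]
      exact hu1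
    obtain ⟨y, hy⟩ := hT (Ultrafilter.ofComapInfPrincipal hu3)
      (Ultrafilter.ofComapInfPrincipal_mem hu3)
    have hmap := Ultrafilter.ofComapInfPrincipal_eq_of_map hu3
    refine ⟨toWeakSpace 𝕜 Y y, ?_⟩
    apply DFunLike.ext
    intro φ
    have h1 : Tendsto (fun G : WeakDual 𝕜 (StrongDual 𝕜 Y) => G φ) u (𝓝 (F φ)) :=
      ((WeakDual.eval_continuous φ).tendsto F).mono_left hu2
    have h2 : Tendsto (fun x => (m x) φ) (Ultrafilter.ofComapInfPrincipal hu3 : Filter X)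
        (𝓝 (F φ)) := by
      have h3 : Tendsto m (Ultrafilter.ofComapInfPrincipal hu3 : Filter X) u := by
        rw [Tendsto, ← Ultrafilter.coe_map, hmap]
      exact h1.comp h3
    have h4 : Tendsto (fun x => (m x) φ) (Ultrafilter.ofComapInfPrincipal hu3 : Filter X)
        (𝓝 (φ y)) := hy φ
    exact tendsto_nhds_unique h4 h2

end UWC

/-- Every completely continuous operator on a space of bounded functions is weakly compact. -/
theorem UWC_of_Z {𝕜 : Type} [RCLike 𝕜] {Γ : Type} {Y : Type v} [NormedAddCommGroup Y]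
    [NormedSpace 𝕜 Y] [CompleteSpace Y] {T : Z 𝕜 Γ →L[𝕜] Y} (hT : IsComplCont T) : UWC T :=
  UWC.of_quadratic (fun _ hε => main_estimate hT hε)

/-! ## The `c₀`-sum -/

section C0

variable {𝕜 : Type} [RCLike 𝕜] {E : Type} [NormedAddCommGroup E] [NormedSpace 𝕜 E]

/-- A null sequence as an element of `C₀(ℕ, E)`. -/
def mkC (f : ℕ → E) (h : Tendsto f atTop (𝓝 0)) : C₀(ℕ, E) :=
  ⟨⟨f, continuous_of_discreteTopology⟩, by
    rw [cocompact_eq_cofinite, Nat.cofinite_eq_atTop]; exact h⟩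

theorem mkC_apply (f : ℕ → E) (h : Tendsto f atTop (𝓝 0)) (n : ℕ) : mkC f h n = f n := rfl

theorem C_apply_le (f : C₀(ℕ, E)) (n : ℕ) : ‖f n‖ ≤ ‖f‖ := by
  rw [← ZeroAtInftyContinuousMap.norm_toBCF_eq_norm]
  exact f.toBCF.norm_coe_le_norm n

theorem C_norm_le {f : C₀(ℕ, E)} {C : ℝ} (hC : 0 ≤ C) (h : ∀ n, ‖f n‖ ≤ C) : ‖f‖ ≤ C := by
  rw [← ZeroAtInftyContinuousMap.norm_toBCF_eq_norm]
  exact (BoundedContinuousFunction.norm_le hC).mpr h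

theorem C_tendsto (f : C₀(ℕ, E)) : Tendsto (fun n => f n) atTop (𝓝 0) := by
  have := f.zero_at_infty'
  rw [cocompact_eq_cofinite, Nat.cofinite_eq_atTop] at this
  exact this

variable (𝕜)

/-- Evaluation at `n`. -/
noncomputable def ev (n : ℕ) : C₀(ℕ, E) →L[𝕜] E :=
  LinearMap.mkContinuous
    { toFun := fun f => f n
      map_add' := fun _ _ => rfl
      map_smul' := fun _ _ => rfl } 1 (fun f => by rw [one_mul]; exact C_apply_le f n)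

/-- The sequence with the single entry `e` at `n`. -/
noncomputable def sng (n : ℕ) : E →L[𝕜] C₀(ℕ, E) :=
  LinearMap.mkContinuous
    { toFun := fun e => mkC (fun k => if k = n then e else 0) (by
        apply tendsto_const_nhds.congr'
        filter_upwards [eventually_gt_atTop n] with k hk
        rw [if_neg (by omega)])
      map_add' := by
        intro a b
        ext k
        simp only [mkC_apply, ZeroAtInftyContinuousMap.add_apply]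
        split_ifs <;> simp
      map_smul' := by
        intro c a
        ext k
        simp only [mkC_apply, ZeroAtInftyContinuousMap.smul_apply, RingHom.id_apply]
        split_ifs <;> simp } 1 (by
      intro e
      rw [one_mul]
      apply C_norm_le (norm_nonneg _)
      intro k
      simp only [LinearMap.coe_mk, AddHom.coe_mk, mkC_apply]
      split_ifs <;> simp)

/-- Truncation to the first `N` coordinates. -/
noncomputable def trunc (N : ℕ) : C₀(ℕ, E) →L[𝕜] C₀(ℕ, E) :=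
  ∑ n ∈ Finset.range N, (sng 𝕜 n).comp (ev 𝕜 n)

theorem ev_apply (n : ℕ) (f : C₀(ℕ, E)) : ev 𝕜 n f = f n := rfl

theorem sng_apply (n : ℕ) (e : E) (k : ℕ) : sng 𝕜 n e k = if k = n then e else 0 := rfl

include 𝕜 in
theorem C_sum_apply (s : Finset ℕ) (f : ℕ → C₀(ℕ, E)) (k : ℕ) :
    (∑ n ∈ s, f n) k = ∑ n ∈ s, f n k := by
  exact map_sum (ev 𝕜 k) f s

theorem trunc_apply (N : ℕ) (f : C₀(ℕ, E)) (k : ℕ) :
    trunc 𝕜 N f k = if k < N then f k else 0 := by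
  unfold trunc
  rw [sum_apply, C_sum_apply 𝕜]
  simp only [ContinuousLinearMap.comp_apply, sng_apply, ev_apply]
  rw [Finset.sum_ite_eq]
  simp

theorem trunc_tendsto (f : C₀(ℕ, E)) : Tendsto (fun N => trunc 𝕜 N f) atTop (𝓝 f) := by
  rw [Metric.tendsto_atTop]
  intro ε hε
  obtain ⟨N, hN⟩ := Metric.tendsto_atTop.mp (C_tendsto f) (ε / 2) (half_pos hε)
  refine ⟨N, fun n hn => ?_⟩
  rw [dist_eq_norm]
  refine lt_of_le_of_lt (C_norm_le (half_pos hε).le ?_) (half_lt_self hε)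
  intro k
  rw [ZeroAtInftyContinuousMap.sub_apply, trunc_apply]
  split_ifs with h
  · simpa using (half_pos hε).le
  · have := hN k (by omega)
    rw [dist_zero_right] at this
    simpa using this.le

variable {𝕜}

/-- Complete continuity forces norm convergence of the truncations. -/
theorem trunc_approx {Y : Type v} [NormedAddCommGroup Y] [NormedSpace 𝕜 Y]
    {T : C₀(ℕ, E) →L[𝕜] Y} (hT : IsComplCont T) {ε : ℝ} (hε : 0 < ε) :
    ∃ N, ‖T - T.comp (trunc 𝕜 N)‖ ≤ ε := by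
  by_contra hcon
  push Not at hcon
  have h1 : ∀ N, ∃ f : C₀(ℕ, E), ‖f‖ ≤ 1 ∧ ε < ‖T f - T (trunc 𝕜 N f)‖ := by
    intro N
    by_contra hno
    push Not at hno
    exact absurd (opNorm_le_of_ball hε.le (fun f hf => hno f hf)) (not_le.mpr (hcon N))
  choose f hf1 hf2 using h1
  have h2 : ∀ N, ∃ M, N ≤ M ∧ ε < ‖T (trunc 𝕜 M (f N)) - T (trunc 𝕜 N (f N))‖ := by
    intro N
    have h3 : Tendsto (fun M => ‖T (trunc 𝕜 M (f N)) - T (trunc 𝕜 N (f N))‖) atTop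
        (𝓝 ‖T (f N) - T (trunc 𝕜 N (f N))‖) :=
      ((((T.continuous.tendsto _).comp (trunc_tendsto 𝕜 (f N))).sub_const _)).norm
    have h4 := h3.eventually (lt_mem_nhds (hf2 N))
    obtain ⟨M, hM1, hM2⟩ := (h4.and (eventually_ge_atTop N)).exists
    exact ⟨M, hM2, hM1⟩
  choose g hg1 hg2 using h2
  let p : ℕ → ℕ := fun k => Nat.rec 0 (fun _ r => g r) k
  have hp : ∀ k, p (k + 1) = g (p k) := fun k => rfl
  have hpm : Monotone p := by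
    apply monotone_nat_of_le_succ
    intro k
    rw [hp]
    exact hg1 _
  have hdisj : ∀ n i j, i < j → p i ≤ n → n < p (i + 1) → p j ≤ n → False := by
    intro n i j hij h1 h2 h3
    have : p (i + 1) ≤ p j := hpm hij
    omega
  have h3 := hT.tendsto_zero
    (u := fun k => trunc 𝕜 (p (k + 1)) (f (p k)) - trunc 𝕜 (p k) (f (p k))) (M := 1) (by
    intro K c hc
    apply C_norm_le zero_le_one
    intro n
    rw [C_sum_apply 𝕜]
    have hval : ∀ k, (c k • (trunc 𝕜 (p (k + 1)) (f (p k)) - trunc 𝕜 (p k) (f (p k))) :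
        C₀(ℕ, E)) n = if p k ≤ n ∧ n < p (k + 1) then c k • f (p k) n else 0 := by
      intro k
      rw [ZeroAtInftyContinuousMap.smul_apply, ZeroAtInftyContinuousMap.sub_apply, trunc_apply,
        trunc_apply]
      have hk : p k ≤ p (k + 1) := hpm (Nat.le_succ k)
      by_cases h1 : n < p k
      · rw [if_pos (by omega), if_pos h1, if_neg (by omega), sub_self, smul_zero]
      · by_cases h2 : n < p (k + 1)
        · rw [if_pos h2, if_neg h1, if_pos ⟨by omega, h2⟩, sub_zero]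
        · rw [if_neg h2, if_neg h1, if_neg (by omega), sub_zero, smul_zero]
    by_cases hex : ∃ k ∈ Finset.range K, p k ≤ n ∧ n < p (k + 1)
    · obtain ⟨k, hkK, hk1, hk2⟩ := hex
      rw [Finset.sum_eq_single_of_mem k hkK]
      · rw [hval, if_pos ⟨hk1, hk2⟩, norm_smul]
        calc ‖c k‖ * ‖f (p k) n‖ ≤ 1 * 1 := by
              gcongr
              · exact hc k
              · exact (C_apply_le _ _).trans (hf1 _)
          _ = 1 := one_mul 1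
      · intro i _ hik
        rw [hval, if_neg]
        rintro ⟨h1, h2⟩
        rcases Nat.lt_or_gt_of_ne hik with h | h
        · exact hdisj n i k h h1 h2 hk1
        · exact hdisj n k i h hk1 hk2 h1
    · push Not at hex
      rw [Finset.sum_eq_zero]
      · simp
      · intro i hi
        rw [hval, if_neg]
        rintro ⟨h1, h2⟩
        have := hex i hi h1
        omega)
  have h4 := h3.norm
  rw [norm_zero] at h4
  obtain ⟨k, hk⟩ := (h4.eventually (gt_mem_nhds hε)).exists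
  have h5 := hg2 (p k)
  rw [← hp, ← map_sub] at h5
  linarith

theorem UWC_of_C0 {Y : Type v} [NormedAddCommGroup Y] [NormedSpace 𝕜 Y] [CompleteSpace Y]
    {T : C₀(ℕ, E) →L[𝕜] Y} (hT : IsComplCont T) (h : ∀ n, UWC (T.comp (sng 𝕜 n))) : UWC T := by
  apply UWC.of_approx
  intro ε hε
  obtain ⟨N, hN⟩ := trunc_approx hT hε
  refine ⟨_, ?_, hN⟩
  have h1 : T.comp (trunc 𝕜 N) =
      ∑ n ∈ Finset.range N, (T.comp (sng 𝕜 n)).comp (ev 𝕜 n) := by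
    unfold trunc
    ext f
    simp [map_sum]
  rw [h1]
  exact UWC.sum _ (fun n _ => (h n).comp _)

end C0

/-! ## The copy of `ℓ¹` and its Schur property -/

section L1

variable {𝕜 : Type} [RCLike 𝕜]

theorem norm_le_re_im (z : 𝕜) : ‖z‖ ≤ |RCLike.re z| + |RCLike.im z| := by
  have h1 : ‖z‖ ^ 2 = RCLike.re z ^ 2 + RCLike.im z ^ 2 := by
    rw [RCLike.norm_sq_eq_def]
    ring
  have h2 := abs_nonneg (RCLike.re z)
  have h3 := abs_nonneg (RCLike.im z)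
  have h4 := sq_abs (RCLike.re z)
  have h5 := sq_abs (RCLike.im z)
  nlinarith [norm_nonneg z, mul_nonneg h2 h3]

/-- Absolutely summable sequences. -/
abbrev L1 (𝕜 : Type) [RCLike 𝕜] := lp (fun _ : ℕ => 𝕜) 1

/-- The sign attached to a bit. -/
def sg (𝕜 : Type) [RCLike 𝕜] (b : Bool) : 𝕜 := if b then 1 else -1

theorem norm_sg (b : Bool) : ‖sg 𝕜 b‖ = 1 := by
  unfold sg
  split_ifs <;> simp

theorem L1_hasSum (a : L1 𝕜) : HasSum (fun i => ‖a i‖) ‖a‖ := by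
  have := lp.hasSum_norm (p := 1) (by simp) a
  simpa using this

theorem L1_summable (a : L1 𝕜) : Summable (fun i => ‖a i‖) := (L1_hasSum a).summable

theorem sg_summable (a : L1 𝕜) (σ : ℕ → Bool) : Summable (fun i => sg 𝕜 (σ i) * a i) := by
  apply Summable.of_norm
  have h : (fun i => ‖sg 𝕜 (σ i) * a i‖) = fun i => ‖a i‖ := by
    funext i
    rw [norm_mul, norm_sg, one_mul]
  rw [h]
  exact L1_summable a

/-- The signed sum. -/
noncomputable def ssum (a : L1 𝕜) (σ : ℕ → Bool) : 𝕜 := ∑' i, sg 𝕜 (σ i) * a i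

theorem norm_ssum_le (a : L1 𝕜) (σ : ℕ → Bool) : ‖ssum a σ‖ ≤ ‖a‖ := by
  have h : (fun i => ‖sg 𝕜 (σ i) * a i‖) = fun i => ‖a i‖ := by
    funext i
    rw [norm_mul, norm_sg, one_mul]
  have h1 : HasSum (fun i => ‖sg 𝕜 (σ i) * a i‖) ‖a‖ := by
    rw [h]; exact L1_hasSum a
  exact tsum_of_norm_bounded h1 (fun i => le_rfl)

theorem ssum_continuous (a : L1 𝕜) : Continuous (fun σ : ℕ → Bool => ssum a σ) := by
  apply continuous_tsum (u := fun i => ‖a i‖)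
  · intro i
    have : Continuous (fun b : Bool => sg 𝕜 b) := continuous_of_discreteTopology
    exact (this.comp (continuous_apply i)).mul continuous_const
  · exact L1_summable a
  · intro i σ
    rw [norm_mul, norm_sg, one_mul]

theorem ssum_sub (a b : L1 𝕜) (σ : ℕ → Bool) : ssum (a - b) σ = ssum a σ - ssum b σ := by
  unfold ssum
  rw [← (sg_summable a σ).tsum_sub (sg_summable b σ)]
  congr 1
  funext i
  rw [lp.coeFn_sub, Pi.sub_apply]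
  ring

/-- The embedding of `ℓ¹` into the bounded functions on `{±1}^ℕ`. -/
noncomputable def J (𝕜 : Type) [RCLike 𝕜] : L1 𝕜 →L[𝕜] Z 𝕜 (ℕ → Bool) :=
  LinearMap.mkContinuous
    { toFun := fun a => mkZ (ssum a) ‖a‖ (norm_ssum_le a)
      map_add' := by
        intro a b
        apply lp.ext
        funext σ
        rw [lp.coeFn_add, Pi.add_apply, mkZ_apply, mkZ_apply, mkZ_apply]
        unfold ssum
        rw [← (sg_summable a σ).tsum_add (sg_summable b σ)]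
        congr 1
        funext i
        rw [lp.coeFn_add, Pi.add_apply]
        ring
      map_smul' := by
        intro c a
        apply lp.ext
        funext σ
        rw [lp.coeFn_smul, Pi.smul_apply, mkZ_apply, mkZ_apply, RingHom.id_apply, smul_eq_mul]
        unfold ssum
        rw [← tsum_mul_left]
        congr 1
        funext i
        rw [lp.coeFn_smul, Pi.smul_apply, smul_eq_mul]
        ring }
    1 (by
      intro a
      rw [one_mul]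
      exact Z_norm_le (norm_nonneg _) (norm_ssum_le a))

theorem J_apply (a : L1 𝕜) (σ : ℕ → Bool) : J 𝕜 a σ = ssum a σ := rfl

theorem J_norm_le (a : L1 𝕜) : ‖J 𝕜 a‖ ≤ ‖a‖ := by
  have := (J 𝕜).le_of_opNorm_le (LinearMap.mkContinuous_norm_le _ zero_le_one _) a
  rwa [one_mul] at this

/-- If all sign changes on `G` keep the signed sum bounded by `θ`, then the `ℓ¹`-mass of `b` on
`G` is at most `2θ`. -/
theorem mass_le {b : L1 𝕜} {G : Set ℕ} [∀ i, Decidable (i ∈ G)] {σ0 : ℕ → Bool} {θ : ℝ}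
    (h : ∀ σ : ℕ → Bool, (∀ i, i ∉ G → σ i = σ0 i) → ‖ssum b σ‖ ≤ θ) :
    ∑' i, (if i ∈ G then ‖b i‖ else 0) ≤ 2 * θ := by
  -- general estimate for a real-linear coordinate
  have key : ∀ (ℓ : 𝕜 →+ ℝ), Continuous ℓ → (∀ z, |ℓ z| ≤ ‖z‖) →
      (Summable (fun i => if i ∈ G then |ℓ (b i)| else 0)) ∧
      ∑' i, (if i ∈ G then |ℓ (b i)| else 0) ≤ θ := by
    intro ℓ hℓc hℓ
    have hsum : Summable (fun i => if i ∈ G then |ℓ (b i)| else 0) := by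
      refine Summable.of_nonneg_of_le (fun i => ?_) (fun i => ?_) (L1_summable b)
      · split_ifs <;> positivity
      · split_ifs
        · exact hℓ _
        · exact norm_nonneg _
    refine ⟨hsum, ?_⟩
    set σp : ℕ → Bool := fun i => if i ∈ G then decide (0 ≤ ℓ (b i)) else σ0 i with hσp
    set σm : ℕ → Bool := fun i => if i ∈ G then !decide (0 ≤ ℓ (b i)) else σ0 i with hσm
    have hp := h σp (fun i hi => by simp [hσp, hi])
    have hm := h σm (fun i hi => by simp [hσm, hi])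
    have h1 : ℓ (ssum b σp - ssum b σm) = ∑' i, 2 * (if i ∈ G then |ℓ (b i)| else 0) := by
      unfold ssum
      rw [← (sg_summable b σp).tsum_sub (sg_summable b σm)]
      have h2 : Summable (fun i => sg 𝕜 (σp i) * b i - sg 𝕜 (σm i) * b i) :=
        (sg_summable b σp).sub (sg_summable b σm)
      rw [← (h2.hasSum.map ℓ hℓc).tsum_eq]
      congr 1
      funext i
      simp only [Function.comp_apply, hσp, hσm]
      by_cases hi : i ∈ G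
      · rw [if_pos hi, if_pos hi, if_pos hi]
        by_cases hb : 0 ≤ ℓ (b i)
        · rw [abs_of_nonneg hb]
          simp only [hb, sg, decide_true, Bool.not_true, if_true, Bool.false_eq_true, if_false]
          rw [one_mul, neg_one_mul, sub_neg_eq_add, map_add]
          ring
        · rw [abs_of_neg (not_le.mp hb)]
          simp only [hb, sg, decide_false, Bool.not_false, if_true, Bool.false_eq_true, if_false]
          rw [one_mul, neg_one_mul, map_sub, map_neg]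
          ring
      · rw [if_neg hi, if_neg hi, if_neg hi, sub_self, map_zero, mul_zero]
    rw [tsum_mul_left] at h1
    have h3 : ℓ (ssum b σp - ssum b σm) ≤ 2 * θ := by
      calc ℓ (ssum b σp - ssum b σm) ≤ |ℓ (ssum b σp - ssum b σm)| := le_abs_self _
        _ ≤ ‖ssum b σp - ssum b σm‖ := hℓ _
        _ ≤ ‖ssum b σp‖ + ‖ssum b σm‖ := norm_sub_le _ _
        _ ≤ 2 * θ := by linarith
    linarith
  obtain ⟨hs1, hr⟩ := key (RCLike.re : 𝕜 →+ ℝ) RCLike.continuous_re RCLike.abs_re_le_norm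
  obtain ⟨hs2, hi⟩ := key (RCLike.im : 𝕜 →+ ℝ) RCLike.continuous_im RCLike.abs_im_le_norm
  have hle : ∀ i, (if i ∈ G then ‖b i‖ else 0) ≤
      (if i ∈ G then |(RCLike.re : 𝕜 →+ ℝ) (b i)| else 0) +
      (if i ∈ G then |(RCLike.im : 𝕜 →+ ℝ) (b i)| else 0) := by
    intro i
    split_ifs
    · exact norm_le_re_im _
    · simp
  have hs : Summable (fun i => if i ∈ G then ‖b i‖ else 0) := by
    refine Summable.of_nonneg_of_le (fun i => ?_) (fun i => ?_) (L1_summable b)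
    · split_ifs <;> positivity
    · split_ifs
      · exact le_rfl
      · exact norm_nonneg _
  calc ∑' i, (if i ∈ G then ‖b i‖ else 0)
      ≤ ∑' i, ((if i ∈ G then |(RCLike.re : 𝕜 →+ ℝ) (b i)| else 0) +
        (if i ∈ G then |(RCLike.im : 𝕜 →+ ℝ) (b i)| else 0)) :=
        hs.tsum_le_tsum hle (hs1.add hs2)
    _ = _ := hs1.tsum_add hs2
    _ ≤ 2 * θ := by linarith

/-- A quantitative Schur property of `ℓ¹`. -/
theorem schur {a : ℕ → L1 𝕜} {θ : ℝ}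
    (h : ∀ σ : ℕ → Bool, ∃ K, ∀ k l, K ≤ k → K ≤ l → ‖ssum (a k - a l) σ‖ ≤ θ) :
    ∃ K, ∀ k l, K ≤ k → K ≤ l → ‖a k - a l‖ ≤ 4 * θ := by
  classical
  let A : ℕ → Set (ℕ → Bool) := fun K => {σ | ∀ k l, K ≤ k → K ≤ l → ‖ssum (a k - a l) σ‖ ≤ θ}
  have hAc : ∀ K, IsClosed (A K) := by
    intro K
    have : A K = ⋂ (k) (l) (_ : K ≤ k) (_ : K ≤ l), {σ | ‖ssum (a k - a l) σ‖ ≤ θ} := by
      ext σ
      simp [A]
    rw [this]
    refine isClosed_iInter fun k => isClosed_iInter fun l => isClosed_iInter fun _ =>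
      isClosed_iInter fun _ => ?_
    exact isClosed_le (ssum_continuous _).norm continuous_const
  have hAu : ⋃ K, A K = Set.univ := by
    rw [Set.eq_univ_iff_forall]
    intro σ
    obtain ⟨K, hK⟩ := h σ
    exact Set.mem_iUnion.mpr ⟨K, hK⟩
  obtain ⟨K1, σ0, hσ0⟩ := nonempty_interior_of_iUnion_of_closed hAc hAu
  obtain ⟨F, u, hu1, hu2⟩ := isOpen_pi_iff.mp isOpen_interior σ0 hσ0
  have hA1 : ∀ σ : ℕ → Bool, (∀ i, i ∉ ((F : Set ℕ)ᶜ) → σ i = σ0 i) → σ ∈ A K1 := by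
    intro σ hσ
    apply interior_subset
    apply hu2
    intro i hi
    rw [hσ i (by simpa using hi)]
    exact (hu1 i hi).2
  have hfin : {σ : ℕ → Bool | ∀ i, i ∉ (F : Set ℕ) → σ i = true}.Finite := by
    apply Set.Finite.subset ((F.powerset.image (fun s => fun i : ℕ => decide (i ∉ F ∨ i ∈ s))).finite_toSet)
    intro σ hσ
    simp only [Finset.coe_image, Set.mem_image, Finset.mem_coe, Finset.mem_powerset]
    refine ⟨F.filter (fun i => σ i = true), Finset.filter_subset _ _, ?_⟩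
    funext i
    by_cases hi : i ∈ F
    · by_cases hs : σ i = true <;> simp [hi, hs]
    · have : σ i = true := hσ i (by simpa using hi)
      simp [hi, this]
  have hev : ∀ᶠ K in atTop, ∀ σ ∈ {σ : ℕ → Bool | ∀ i, i ∉ (F : Set ℕ) → σ i = true}, σ ∈ A K := by
    rw [Filter.eventually_all_finite hfin]
    intro σ _
    obtain ⟨K, hK⟩ := h σ
    filter_upwards [eventually_ge_atTop K] with K' hK' k l hk hl
    exact hK k l (hK'.trans hk) (hK'.trans hl)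
  obtain ⟨K2, hK2, hK12⟩ := (hev.and (eventually_ge_atTop K1)).exists
  refine ⟨K2, fun k l hk hl => ?_⟩
  set b := a k - a l with hb
  have e1 : ∑' i, (if i ∈ ((F : Set ℕ)ᶜ) then ‖b i‖ else 0) ≤ 2 * θ :=
    mass_le (fun σ hσ => hA1 σ hσ k l (hK12.trans hk) (hK12.trans hl))
  have e2 : ∑' i, (if i ∈ (F : Set ℕ) then ‖b i‖ else 0) ≤ 2 * θ :=
    mass_le (σ0 := fun _ => true) (fun σ hσ => hK2 σ hσ k l hk hl)
  have hs1 : Summable (fun i => if i ∈ ((F : Set ℕ)ᶜ) then ‖b i‖ else 0) := by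
    refine Summable.of_nonneg_of_le (fun i => ?_) (fun i => ?_) (L1_summable b)
    · split_ifs <;> positivity
    · split_ifs
      · exact le_rfl
      · exact norm_nonneg _
  have hs2 : Summable (fun i => if i ∈ (F : Set ℕ) then ‖b i‖ else 0) := by
    refine Summable.of_nonneg_of_le (fun i => ?_) (fun i => ?_) (L1_summable b)
    · split_ifs <;> positivity
    · split_ifs
      · exact le_rfl
      · exact norm_nonneg _
  have e3 : ‖b‖ = ∑' i, (if i ∈ ((F : Set ℕ)ᶜ) then ‖b i‖ else 0) +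
      ∑' i, (if i ∈ (F : Set ℕ) then ‖b i‖ else 0) := by
    rw [← hs1.tsum_add hs2, ← (L1_hasSum b).tsum_eq]
    congr 1
    funext i
    by_cases hi : i ∈ (F : Set ℕ) <;> simp [hi]
  rw [e3]
  linarith

end L1

/-! ## The example -/

section Space

variable (𝕜 : Type) [RCLike 𝕜]

/-- `ℓ¹ ⊕ ℓ^∞({±1}^ℕ)`. -/
def E : Type := L1 𝕜 × Z 𝕜 (ℕ → Bool)

noncomputable instance : NormedAddCommGroup (E 𝕜) :=
  inferInstanceAs (NormedAddCommGroup (L1 𝕜 × Z 𝕜 (ℕ → Bool)))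

noncomputable instance : NormedSpace 𝕜 (E 𝕜) :=
  inferInstanceAs (NormedSpace 𝕜 (L1 𝕜 × Z 𝕜 (ℕ → Bool)))

instance : CompleteSpace (E 𝕜) :=
  inferInstanceAs (CompleteSpace (L1 𝕜 × Z 𝕜 (ℕ → Bool)))

/-- First coordinate. -/
noncomputable def fstE : E 𝕜 →L[𝕜] L1 𝕜 := ContinuousLinearMap.fst 𝕜 (L1 𝕜) (Z 𝕜 (ℕ → Bool))

/-- Second coordinate. -/
noncomputable def sndE : E 𝕜 →L[𝕜] Z 𝕜 (ℕ → Bool) :=
  ContinuousLinearMap.snd 𝕜 (L1 𝕜) (Z 𝕜 (ℕ → Bool))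

/-- First embedding. -/
noncomputable def inlE : L1 𝕜 →L[𝕜] E 𝕜 := ContinuousLinearMap.inl 𝕜 (L1 𝕜) (Z 𝕜 (ℕ → Bool))

/-- Second embedding. -/
noncomputable def inrE : Z 𝕜 (ℕ → Bool) →L[𝕜] E 𝕜 :=
  ContinuousLinearMap.inr 𝕜 (L1 𝕜) (Z 𝕜 (ℕ → Bool))

theorem fstE_inl (a : L1 𝕜) : fstE 𝕜 (inlE 𝕜 a) = a := rfl
theorem sndE_inl (a : L1 𝕜) : sndE 𝕜 (inlE 𝕜 a) = 0 := rfl
theorem fstE_inr (z : Z 𝕜 (ℕ → Bool)) : fstE 𝕜 (inrE 𝕜 z) = 0 := rfl
theorem sndE_inr (z : Z 𝕜 (ℕ → Bool)) : sndE 𝕜 (inrE 𝕜 z) = z := rfl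

theorem norm_sndE_le (e : E 𝕜) : ‖sndE 𝕜 e‖ ≤ ‖e‖ :=
  norm_snd_le (E := L1 𝕜) (F := Z 𝕜 (ℕ → Bool)) e

theorem norm_inlE (a : L1 𝕜) : ‖inlE 𝕜 a‖ ≤ ‖a‖ := by
  have h : ‖((a, 0) : L1 𝕜 × Z 𝕜 (ℕ → Bool))‖ ≤ ‖a‖ := by
    rw [Prod.norm_mk, norm_zero]
    simp
  exact h

/-- The map `(a, z) ↦ J a + z / (n+1)`. -/
noncomputable def R (n : ℕ) : E 𝕜 →L[𝕜] Z 𝕜 (ℕ → Bool) :=
  (J 𝕜).comp (fstE 𝕜) + (((n + 1 : ℝ)⁻¹ : ℝ) : 𝕜) • (sndE 𝕜)

theorem R_apply (n : ℕ) (e : E 𝕜) :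
    R 𝕜 n e = J 𝕜 (fstE 𝕜 e) + (((n + 1 : ℝ)⁻¹ : ℝ) : 𝕜) • (sndE 𝕜 e) := rfl

/-- The sequences `f` with `R n (f n) = 0` for all `n`. -/
noncomputable def NN : Submodule 𝕜 C₀(ℕ, E 𝕜) :=
  ⨅ n, ((R 𝕜 n).comp (ev 𝕜 n)).ker

theorem mem_NN (f : C₀(ℕ, E 𝕜)) : f ∈ NN 𝕜 ↔ ∀ n, R 𝕜 n (f n) = 0 := by
  unfold NN
  rw [Submodule.mem_iInf]
  rfl

theorem isClosed_NN : IsClosed (NN 𝕜 : Set C₀(ℕ, E 𝕜)) := by
  have : (NN 𝕜 : Set C₀(ℕ, E 𝕜)) = ⋂ n, {f | (R 𝕜 n).comp (ev 𝕜 n) f = 0} := by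
    ext f
    simp only [SetLike.mem_coe, Set.mem_iInter, Set.mem_ofPred_eq]
    exact mem_NN 𝕜 f
  rw [this]
  exact isClosed_iInter fun n =>
    isClosed_eq ((R 𝕜 n).comp (ev 𝕜 n)).continuous continuous_const

end Space

section Quot

variable {𝕜 : Type} [RCLike 𝕜]

theorem exists_quotient {W : Type} [NormedAddCommGroup W] [NormedSpace 𝕜 W] [CompleteSpace W]
    (N : Submodule 𝕜 W) (hN : IsClosed (N : Set W)) :
    ∃ (X : Type) (_ : NormedAddCommGroup X) (_ : NormedSpace 𝕜 X) (_ : CompleteSpace X)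
      (Q : W →L[𝕜] X), (∀ w, Q w = 0 ↔ w ∈ N) ∧ (∀ w, ‖Q w‖ ≤ ‖w‖) ∧
        (∀ x, ∃ w, Q w = x ∧ ‖w‖ ≤ 2 * ‖x‖) := by
  have := hN
  refine ⟨W ⧸ N, inferInstance, inferInstance, inferInstance,
    LinearMap.mkContinuous N.mkQ 1 (fun w => by
      rw [one_mul]; exact Submodule.Quotient.norm_mk_le N w), ?_, ?_, ?_⟩
  · intro w
    exact Submodule.Quotient.mk_eq_zero N
  · intro w
    exact Submodule.Quotient.norm_mk_le N w
  · intro x
    rcases eq_or_ne ‖x‖ 0 with h0 | h0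
    · refine ⟨0, ?_, ?_⟩
      · rw [map_zero, norm_eq_zero.mp h0]
      · rw [h0]; simp
    · have hpos : 0 < ‖x‖ := lt_of_le_of_ne (norm_nonneg _) (Ne.symm h0)
      obtain ⟨w, hw1, hw2⟩ := Submodule.Quotient.norm_mk_lt x hpos
      exact ⟨w, hw1, by linarith⟩

theorem lift_of_quotient {W X V : Type} [NormedAddCommGroup W] [NormedSpace 𝕜 W]
    [NormedAddCommGroup X] [NormedSpace 𝕜 X] [NormedAddCommGroup V] [NormedSpace 𝕜 V]
    (Q : W →L[𝕜] X) (hQ : ∀ x, ∃ w, Q w = x ∧ ‖w‖ ≤ 2 * ‖x‖) (S : W →L[𝕜] V)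
    (hS : ∀ w, Q w = 0 → S w = 0) : ∃ T : X →L[𝕜] V, ∀ w, T (Q w) = S w := by
  choose s hs1 hs2 using hQ
  have hwell : ∀ w w', Q w = Q w' → S w = S w' := by
    intro w w' h
    have := hS (w - w') (by rw [map_sub, h, sub_self])
    rw [map_sub] at this
    exact sub_eq_zero.mp this
  refine ⟨LinearMap.mkContinuous
    { toFun := fun x => S (s x)
      map_add' := fun x y => by
        rw [← map_add]
        apply hwell
        rw [map_add, hs1, hs1, hs1]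
      map_smul' := fun c x => by
        rw [RingHom.id_apply, ← map_smul]
        apply hwell
        rw [map_smul, hs1, hs1] } (‖S‖ * 2) (fun x => by
      calc ‖S (s x)‖ ≤ ‖S‖ * ‖s x‖ := S.le_opNorm _
        _ ≤ ‖S‖ * (2 * ‖x‖) := by gcongr; exact hs2 x
        _ = ‖S‖ * 2 * ‖x‖ := by ring), ?_⟩
  intro w
  exact hwell _ _ (hs1 _)

end Quot

section Main

variable (𝕜 : Type) [RCLike 𝕜] {X : Type} [NormedAddCommGroup X] [NormedSpace 𝕜 X]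
  (Q : C₀(ℕ, E 𝕜) →L[𝕜] X)

/-- The section `z ↦ (0, (n+1) z)` placed at `n`. -/
noncomputable def VV (n : ℕ) : Z 𝕜 (ℕ → Bool) →L[𝕜] C₀(ℕ, E 𝕜) :=
  (sng 𝕜 n).comp ((((n + 1 : ℝ) : 𝕜)) • (inrE 𝕜))

theorem VV_apply (n : ℕ) (z : Z 𝕜 (ℕ → Bool)) :
    VV 𝕜 n z = sng 𝕜 n ((((n + 1 : ℝ) : 𝕜)) • (inrE 𝕜 z)) := rfl

theorem sub_mem_NN (n : ℕ) (e : E 𝕜) : sng 𝕜 n e - VV 𝕜 n (R 𝕜 n e) ∈ NN 𝕜 := by
  rw [mem_NN]
  intro k
  rw [VV_apply, ← map_sub, sng_apply]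
  split_ifs with hk
  · subst hk
    have h0 : ((k + 1 : ℝ) : 𝕜) ≠ 0 := by
      rw [Ne, RCLike.ofReal_eq_zero]
      positivity
    have h1 : R 𝕜 k (((k + 1 : ℝ) : 𝕜) • (inrE 𝕜 (R 𝕜 k e))) = R 𝕜 k e := by
      rw [map_smul, R_apply 𝕜 k (inrE 𝕜 (R 𝕜 k e)), fstE_inr, sndE_inr, map_zero, zero_add,
        smul_smul, RCLike.ofReal_inv, mul_inv_cancel₀ h0, one_smul]
    rw [map_sub, h1, sub_self]
  · exact map_zero _

theorem RDPP_of_Q (hQ0 : ∀ w, Q w = 0 ↔ w ∈ NN 𝕜)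
    (hQl : ∀ x, ∃ w, Q w = x ∧ ‖w‖ ≤ 2 * ‖x‖) : HasRDPP.{0, v} 𝕜 X := by
  intro Y _ _ _ T hT
  apply UWC.isWeaklyCompactOp
  apply UWC.of_quotient (C := 2) (by norm_num) hQl
  have hTQ : IsComplCont (T.comp Q) := hT.comp _
  apply UWC_of_C0 hTQ
  intro n
  have hSU : UWC ((T.comp Q).comp (VV 𝕜 n)) := UWC_of_Z (hTQ.comp _)
  have hfac : (T.comp Q).comp (sng 𝕜 n) = ((T.comp Q).comp (VV 𝕜 n)).comp (R 𝕜 n) := by
    apply ContinuousLinearMap.ext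
    intro e
    have h2 := (hQ0 _).mpr (sub_mem_NN 𝕜 n e)
    rw [map_sub] at h2
    have h3 : Q (sng 𝕜 n e) = Q (VV 𝕜 n (R 𝕜 n e)) := sub_eq_zero.mp h2
    exact congrArg T h3
  rw [hfac]
  exact hSU.comp _

variable {Q} {n : ℕ} {TT : X →L[𝕜] Z 𝕜 (ℕ → Bool)}

/-- The bound for `cc`. -/
theorem cc_TT_le (hQl : ∀ x, ∃ w, Q w = x ∧ ‖w‖ ≤ 2 * ‖x‖)
    (hTT : ∀ f, TT (Q f) = R 𝕜 n (f n)) : cc TT ≤ ENNReal.ofReal (24 / (n + 1)) := by
  unfold cc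
  refine iSup_le fun x => iSup_le fun hx => iSup_le fun hx1 => ?_
  have hn : (0 : ℝ) < n + 1 := by positivity
  -- lifts
  have hl : ∀ k, ∃ f : C₀(ℕ, E 𝕜), Q f = x k ∧ ‖f‖ ≤ 2 := by
    intro k
    obtain ⟨f, hf1, hf2⟩ := hQl (x k)
    have : ‖x k‖ ≤ 1 := by simpa using hx1 k
    exact ⟨f, hf1, by linarith⟩
  choose f hf1 hf2 using hl
  set a : ℕ → L1 𝕜 := fun k => fstE 𝕜 (f k n) with ha
  set z : ℕ → Z 𝕜 (ℕ → Bool) := fun k => sndE 𝕜 (f k n) with hz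
  have hz2 : ∀ k, ‖z k‖ ≤ 2 := fun k =>
    (norm_sndE_le 𝕜 (f k n)).trans ((C_apply_le _ _).trans (hf2 k))
  have hT : ∀ k, TT (x k) = J 𝕜 (a k) + (((n + 1 : ℝ)⁻¹ : ℝ) : 𝕜) • z k := by
    intro k
    rw [← hf1 k]
    exact hTT (f k)
  have hinv : ‖(((n + 1 : ℝ)⁻¹ : ℝ) : 𝕜)‖ = (n + 1 : ℝ)⁻¹ := by
    rw [RCLike.norm_ofReal, abs_of_nonneg (by positivity)]
  have hzz : ∀ k l, ‖(((n + 1 : ℝ)⁻¹ : ℝ) : 𝕜) • (z k - z l)‖ ≤ 4 / (n + 1) := by
    intro k l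
    rw [norm_smul, hinv, inv_mul_eq_div]
    gcongr
    have := norm_sub_le (z k) (z l)
    have := hz2 k
    have := hz2 l
    linarith
  have hsch : ∀ σ : ℕ → Bool, ∃ K, ∀ k l, K ≤ k → K ≤ l → ‖ssum (a k - a l) σ‖ ≤ 5 / (n + 1) := by
    intro σ
    let evσ : Z 𝕜 (ℕ → Bool) →L[𝕜] 𝕜 := LinearMap.mkContinuous
      { toFun := fun f => f σ
        map_add' := fun _ _ => rfl
        map_smul' := fun _ _ => rfl } 1 (fun f => by rw [one_mul]; exact Z_apply_le f σ)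
    have h1 := hx (evσ.comp TT)
    rw [Metric.cauchySeq_iff] at h1
    obtain ⟨K, hK⟩ := h1 (1 / (n + 1)) (by positivity)
    refine ⟨K, fun k l hk hl => ?_⟩
    have h2 := hK k hk l hl
    rw [dist_eq_norm] at h2
    have h3 : (evσ.comp TT) (x k) - (evσ.comp TT) (x l) =
        ssum (a k - a l) σ + ((((n + 1 : ℝ)⁻¹ : ℝ) : 𝕜) • (z k - z l) : Z 𝕜 (ℕ → Bool)) σ := by
      have e1 : (evσ.comp TT) (x k) = (TT (x k)) σ := rfl
      have e2 : (evσ.comp TT) (x l) = (TT (x l)) σ := rfl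
      rw [e1, e2, hT, hT, ssum_sub]
      simp only [lp.coeFn_add, lp.coeFn_smul, lp.coeFn_sub, Pi.add_apply, Pi.smul_apply,
        Pi.sub_apply, J_apply, smul_eq_mul]
      ring
    have h4 : ‖((((n + 1 : ℝ)⁻¹ : ℝ) : 𝕜) • (z k - z l) : Z 𝕜 (ℕ → Bool)) σ‖ ≤ 4 / (n + 1) :=
      (Z_apply_le _ σ).trans (hzz k l)
    have h5 : ssum (a k - a l) σ = ((evσ.comp TT) (x k) - (evσ.comp TT) (x l)) -
        ((((n + 1 : ℝ)⁻¹ : ℝ) : 𝕜) • (z k - z l) : Z 𝕜 (ℕ → Bool)) σ := by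
      rw [h3]; ring
    rw [h5]
    refine (norm_sub_le _ _).trans ?_
    have h6 : (5 : ℝ) / (n + 1) = 1 / (n + 1) + 4 / (n + 1) := by ring
    rw [h6]
    exact add_le_add h2.le h4
  obtain ⟨K, hK⟩ := schur hsch
  unfold ca
  refine iInf_le_of_le K ?_
  refine iSup_le fun k => iSup_le fun hk => iSup_le fun l => iSup_le fun hl => ?_
  rw [edist_dist]
  apply ENNReal.ofReal_le_ofReal
  rw [dist_eq_norm]
  change ‖TT (x k) - TT (x l)‖ ≤ _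
  rw [hT, hT]
  have h1 : J 𝕜 (a k) + (((n + 1 : ℝ)⁻¹ : ℝ) : 𝕜) • z k -
      (J 𝕜 (a l) + (((n + 1 : ℝ)⁻¹ : ℝ) : 𝕜) • z l) =
      J 𝕜 (a k - a l) + (((n + 1 : ℝ)⁻¹ : ℝ) : 𝕜) • (z k - z l) := by
    rw [map_sub, smul_sub]; abel
  rw [h1]
  calc ‖J 𝕜 (a k - a l) + (((n + 1 : ℝ)⁻¹ : ℝ) : 𝕜) • (z k - z l)‖
      ≤ ‖J 𝕜 (a k - a l)‖ + ‖(((n + 1 : ℝ)⁻¹ : ℝ) : 𝕜) • (z k - z l)‖ := norm_add_le _ _
    _ ≤ 4 * (5 / (n + 1)) + 4 / (n + 1) := by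
      gcongr
      · exact (J_norm_le _).trans (hK k l hk hl)
      · exact hzz k l
    _ = 24 / (n + 1) := by ring

/-- Evaluation at `σ`. -/
noncomputable def evσ (σ : ℕ → Bool) : StrongDual 𝕜 (Z 𝕜 (ℕ → Bool)) :=
  LinearMap.mkContinuous
    { toFun := fun f => f σ
      map_add' := fun _ _ => rfl
      map_smul' := fun _ _ => rfl } 1 (fun f => by rw [one_mul]; exact Z_apply_le f σ)

theorem evσ_apply (σ : ℕ → Bool) (f : Z 𝕜 (ℕ → Bool)) : evσ 𝕜 σ f = f σ := rfl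

theorem evσ_norm_le (σ : ℕ → Bool) : ‖evσ 𝕜 σ‖ ≤ 1 :=
  LinearMap.mkContinuous_norm_le _ zero_le_one _

/-- The unit vectors of `ℓ¹`. -/
noncomputable def bv (i : ℕ) : L1 𝕜 := lp.single 1 i 1

theorem norm_bv (i : ℕ) : ‖bv 𝕜 i‖ = 1 := by
  simp [bv, lp.norm_single]

theorem J_bv (i : ℕ) (σ : ℕ → Bool) : J 𝕜 (bv 𝕜 i) σ = sg 𝕜 (σ i) := by
  rw [J_apply]
  unfold ssum
  rw [tsum_eq_single i]
  · simp [bv]
  · intro j hj
    simp [bv, lp.single_apply, hj]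

/-- The step sequences. -/
def stp (m : ℕ) : ℕ → Bool := fun i => decide (m < i)

/-- Two limit functionals. -/
theorem exists_limits : ∃ (𝒰 : Ultrafilter ℕ)
    (F : StrongDual 𝕜 (StrongDual 𝕜 (Z 𝕜 (ℕ → Bool)))) (Φ : StrongDual 𝕜 (Z 𝕜 (ℕ → Bool))),
    (𝒰 : Filter ℕ) ≤ atTop ∧ ‖Φ‖ ≤ 1 ∧
    Tendsto (fun i => StrongDual.toWeakDual
      (NormedSpace.inclusionInDoubleDual 𝕜 _ (J 𝕜 (bv 𝕜 i)))) (𝒰 : Filter ℕ)
      (𝓝 (StrongDual.toWeakDual F)) ∧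
    (∀ φ : StrongDual 𝕜 (Z 𝕜 (ℕ → Bool)),
      Tendsto (fun i => φ (J 𝕜 (bv 𝕜 i))) (𝒰 : Filter ℕ) (𝓝 (F φ))) ∧
    (∀ g : Z 𝕜 (ℕ → Bool),
      Tendsto (fun m => g (stp m)) (𝒰 : Filter ℕ) (𝓝 (Φ g))) := by
  let 𝒰 : Ultrafilter ℕ := Filter.hyperfilter ℕ
  have h𝒰 : (𝒰 : Filter ℕ) ≤ atTop := by
    rw [← Nat.cofinite_eq_atTop]
    exact Filter.hyperfilter_le_cofinite
  let uu : ℕ → WeakDual 𝕜 (StrongDual 𝕜 (Z 𝕜 (ℕ → Bool))) := fun i =>
    StrongDual.toWeakDual (NormedSpace.inclusionInDoubleDual 𝕜 _ (J 𝕜 (bv 𝕜 i)))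
  have hJn : ∀ i, ‖J 𝕜 (bv 𝕜 i)‖ ≤ 1 := fun i => (J_norm_le _).trans (norm_bv 𝕜 i).le
  obtain ⟨F', _, hF'2⟩ := (WeakDual.isCompact_closedBall
    (0 : StrongDual 𝕜 (StrongDual 𝕜 (Z 𝕜 (ℕ → Bool)))) 1).ultrafilter_le_nhds (𝒰.map uu) (by
      rw [le_principal_iff]
      apply Filter.mem_of_superset (Filter.univ_mem (f := (𝒰 : Filter ℕ)))
      intro i _
      simp only [Set.mem_preimage, Metric.mem_closedBall, dist_zero_right]
      exact (NormedSpace.double_dual_bound 𝕜 _ _).trans (hJn i))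
  let vv : ℕ → WeakDual 𝕜 (Z 𝕜 (ℕ → Bool)) := fun m => StrongDual.toWeakDual (evσ 𝕜 (stp m))
  obtain ⟨Φ', hΦ'1, hΦ'2⟩ := (WeakDual.isCompact_closedBall
    (0 : StrongDual 𝕜 (Z 𝕜 (ℕ → Bool))) 1).ultrafilter_le_nhds (𝒰.map vv) (by
      rw [le_principal_iff]
      apply Filter.mem_of_superset (Filter.univ_mem (f := (𝒰 : Filter ℕ)))
      intro m _
      simp only [Set.mem_preimage, Metric.mem_closedBall, dist_zero_right]
      exact evσ_norm_le 𝕜 _)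
  refine ⟨𝒰, WeakDual.toStrongDual F', WeakDual.toStrongDual Φ', h𝒰, by simpa using hΦ'1, hF'2,
    ?_, ?_⟩
  · intro φ
    exact ((WeakDual.eval_continuous φ).tendsto F').comp
      (show Tendsto uu (𝒰 : Filter ℕ) (𝓝 F') from hF'2)
  · intro g
    exact ((WeakDual.eval_continuous g).tendsto Φ').comp
      (show Tendsto vv (𝒰 : Filter ℕ) (𝓝 Φ') from hΦ'2)

/-- The bidual point at distance at least one. -/
theorem exists_far : ∃ (𝒰 : Ultrafilter ℕ) (F : StrongDual 𝕜 (StrongDual 𝕜 (Z 𝕜 (ℕ → Bool)))),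
    Tendsto (fun i => StrongDual.toWeakDual
      (NormedSpace.inclusionInDoubleDual 𝕜 _ (J 𝕜 (bv 𝕜 i)))) (𝒰 : Filter ℕ)
      (𝓝 (StrongDual.toWeakDual F)) ∧
    ∀ g : Z 𝕜 (ℕ → Bool), 1 ≤ ‖F - NormedSpace.inclusionInDoubleDual 𝕜 _ g‖ := by
  obtain ⟨𝒰, F, Φ, h𝒰, hΦn, hFw, hF, hΦ⟩ := exists_limits 𝕜
  have v1 : ∀ m, F (evσ 𝕜 (stp m)) = 1 := by
    intro m
    have h1 := hF (evσ 𝕜 (stp m))
    have h2 : Tendsto (fun i => evσ 𝕜 (stp m) (J 𝕜 (bv 𝕜 i))) (𝒰 : Filter ℕ) (𝓝 1) := by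
      apply tendsto_const_nhds.congr'
      filter_upwards [h𝒰 (eventually_gt_atTop m)] with i hi
      rw [evσ_apply, J_bv]
      have hi' : m < i := hi
      simp [stp, sg, hi']
    exact tendsto_nhds_unique h1 h2
  have v2 : ∀ i, Φ (J 𝕜 (bv 𝕜 i)) = -1 := by
    intro i
    have h1 := hΦ (J 𝕜 (bv 𝕜 i))
    have h2 : Tendsto (fun m => J 𝕜 (bv 𝕜 i) (stp m)) (𝒰 : Filter ℕ) (𝓝 (-1)) := by
      apply tendsto_const_nhds.congr'
      filter_upwards [h𝒰 (eventually_ge_atTop i)] with m hm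
      rw [J_bv]
      have hm' : ¬ m < i := not_lt.mpr hm
      simp [stp, sg, hm']
    exact tendsto_nhds_unique h1 h2
  have v3 : F Φ = -1 := by
    have h1 := hF Φ
    have h2 : Tendsto (fun i => Φ (J 𝕜 (bv 𝕜 i))) (𝒰 : Filter ℕ) (𝓝 (-1)) := by
      simp only [v2]
      exact tendsto_const_nhds
    exact tendsto_nhds_unique h1 h2
  refine ⟨𝒰, F, hFw, fun g => ?_⟩
  set D := F - NormedSpace.inclusionInDoubleDual 𝕜 (Z 𝕜 (ℕ → Bool)) g with hD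
  have h1 : ∀ m, ‖2 - (g (stp m) - Φ g)‖ ≤ ‖D‖ * 2 := by
    intro m
    have h2 : D (evσ 𝕜 (stp m) - Φ) = 2 - (g (stp m) - Φ g) := by
      have h3 : D (evσ 𝕜 (stp m) - Φ) = F (evσ 𝕜 (stp m) - Φ) - (evσ 𝕜 (stp m) - Φ) g := rfl
      have h4 : (evσ 𝕜 (stp m) - Φ) g = g (stp m) - Φ g := rfl
      rw [h3, h4, map_sub, v1, v3]
      ring
    rw [← h2]
    refine (D.le_opNorm _).trans ?_
    gcongr
    refine (norm_sub_le _ _).trans ?_
    have := evσ_norm_le 𝕜 (stp m)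
    linarith
  have h3 : Tendsto (fun m => ‖2 - (g (stp m) - Φ g)‖) (𝒰 : Filter ℕ)
      (𝓝 ‖(2 : 𝕜) - (Φ g - Φ g)‖) :=
    (((hΦ g).sub_const (Φ g)).const_sub 2).norm
  have h4 : ‖(2 : 𝕜) - (Φ g - Φ g)‖ ≤ ‖D‖ * 2 := le_of_tendsto h3 (Eventually.of_forall h1)
  rw [sub_self, sub_zero, RCLike.norm_ofNat] at h4
  linarith

/-- The bound for `wk`. -/
theorem one_le_wk_TT (hQn : ∀ w, ‖Q w‖ ≤ ‖w‖) (hTT : ∀ f, TT (Q f) = R 𝕜 n (f n)) :
    1 ≤ wk TT := by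
  obtain ⟨𝒰, F, hF, hdist⟩ := exists_far 𝕜
  have hmem : F ∈ bidualClosure 𝕜 (TT '' Metric.closedBall 0 1) := by
    have h1 : ∀ᶠ i in (𝒰 : Filter ℕ), StrongDual.toWeakDual
        (NormedSpace.inclusionInDoubleDual 𝕜 _ (J 𝕜 (bv 𝕜 i))) ∈
        ((fun y => StrongDual.toWeakDual (NormedSpace.inclusionInDoubleDual 𝕜 _ y)) ''
          (TT '' Metric.closedBall 0 1)) := by
      refine Eventually.of_forall fun i => ?_
      refine ⟨J 𝕜 (bv 𝕜 i), ⟨Q (sng 𝕜 n (inlE 𝕜 (bv 𝕜 i))), ?_, ?_⟩, rfl⟩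
      · rw [Metric.mem_closedBall, dist_zero_right]
        refine (hQn _).trans ?_
        apply C_norm_le zero_le_one
        intro k
        rw [sng_apply]
        split_ifs
        · exact (norm_inlE 𝕜 _).trans (norm_bv 𝕜 i).le
        · simp
      · rw [hTT, sng_apply, if_pos rfl, R_apply, fstE_inl, sndE_inl, smul_zero, add_zero]
    have h2 : StrongDual.toWeakDual F ∈ closure ((fun y => StrongDual.toWeakDual
        (NormedSpace.inclusionInDoubleDual 𝕜 _ y)) '' (TT '' Metric.closedBall 0 1)) :=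
      mem_closure_of_tendsto hF h1
    exact h2
  have hdist' : 1 ≤ Metric.infEDist F (Set.range (NormedSpace.inclusionInDoubleDual 𝕜
      (Z 𝕜 (ℕ → Bool)))) := by
    rw [Metric.le_infEDist]
    rintro _ ⟨g, rfl⟩
    rw [edist_dist, dist_eq_norm, show (1 : ℝ≥0∞) = ENNReal.ofReal 1 from ENNReal.ofReal_one.symm]
    exact ENNReal.ofReal_le_ofReal (hdist g)
  refine hdist'.trans ?_
  unfold wk wkSet
  exact le_iSup₂_of_le F hmem le_rfl

theorem not_quant (hQ0 : ∀ w, Q w = 0 ↔ w ∈ NN 𝕜) (hQn : ∀ w, ‖Q w‖ ≤ ‖w‖)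
    (hQl : ∀ x, ∃ w, Q w = x ∧ ‖w‖ ≤ 2 * ‖x‖) : ¬ HasQuantRDPP.{0, 0} 𝕜 X := by
  rintro ⟨C, hC⟩
  obtain ⟨n, hn⟩ := exists_nat_gt (24 * (C : ℝ))
  obtain ⟨TT, hTT⟩ := lift_of_quotient Q hQl ((R 𝕜 n).comp (ev 𝕜 n)) (by
    intro w hw
    exact (mem_NN 𝕜 w).mp ((hQ0 w).mp hw) n)
  have h1 := hC (Z 𝕜 (ℕ → Bool)) TT
  have h2 : (1 : ℝ≥0∞) ≤ C * ENNReal.ofReal (24 / (n + 1)) :=
    (one_le_wk_TT 𝕜 hQn hTT).trans (h1.trans (by gcongr; exact cc_TT_le 𝕜 hQl hTT))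
  rw [← ENNReal.ofReal_coe_nnreal, ← ENNReal.ofReal_mul (by positivity),
    show (1 : ℝ≥0∞) = ENNReal.ofReal 1 from ENNReal.ofReal_one.symm,
    ENNReal.ofReal_le_ofReal_iff (by positivity)] at h2
  have hn0 : (0 : ℝ) < n + 1 := by positivity
  rw [mul_div_assoc', le_div_iff₀ hn0] at h2
  linarith

end Main

/-- The final statement. -/
theorem exists_space (𝕜 : Type) [RCLike 𝕜] :
    ∃ (X : Type) (_ : NormedAddCommGroup X) (_ : NormedSpace 𝕜 X) (_ : CompleteSpace X),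
      HasRDPP.{0, v} 𝕜 X ∧ ¬ HasQuantRDPP.{0, 0} 𝕜 X := by
  obtain ⟨X, i1, i2, i3, Q, hQ0, hQn, hQl⟩ := exists_quotient (NN 𝕜) (isClosed_NN 𝕜)
  exact ⟨X, i1, i2, i3, RDPP_of_Q 𝕜 Q hQ0 hQl, not_quant 𝕜 hQ0 hQn hQl⟩

end Pool.Agent.Lib.MP_2f19c2_an
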